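import Mathlib

/-!
# Consequences of an asymptotic formula `x_N ~ c N^{3/2} e^{N V / 2 π}`
-/

set_option autoImplicit false

namespace Pool.Agent.Y472.K.Lim

open Filter Topology

/-- the comparison function -/
noncomputable def w (V : ℝ) (N : ℕ) : ℝ := (N : ℝ) ^ (3 / 2 : ℝ) * Real.exp (N * V / (2 * Real.pi))

lemma w_pos (V : ℝ) {N : ℕ} (hN : 1 ≤ N) : 0 < w V N := by
  have : (0 : ℝ) < N := by exact_mod_cast hN
  unfold w
  positivity

variable {x : ℕ → ℝ} {V c : ℝ}

lemma ev_pos (hc : 0 < c) (h : Tendsto (fun N => x N / w V N) atTop (𝓝 c)) :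
    ∀ᶠ N in atTop, 0 < x N := by
  filter_upwards [h.eventually (lt_mem_nhds hc), eventually_ge_atTop 1] with N h1 h2
  have h3 := w_pos V h2
  have h4 : x N = x N / w V N * w V N := by field_simp
  rw [h4]
  exact mul_pos h1 h3

/-- `log x_N = log c + (3/2) log N + N V / 2 π + o(1)` -/
lemma log_eq (hc : 0 < c) (h : Tendsto (fun N => x N / w V N) atTop (𝓝 c)) :
    Tendsto (fun N : ℕ => Real.log (x N) - 3 / 2 * Real.log N - N * V / (2 * Real.pi)) atTop
      (𝓝 (Real.log c)) := by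
  have h1 := (Real.continuousAt_log hc.ne').tendsto.comp h
  refine h1.congr' ?_
  filter_upwards [ev_pos hc h, eventually_ge_atTop 1] with N h2 h3
  have hN : (0 : ℝ) < N := by exact_mod_cast h3
  have h4 := w_pos V h3
  show Real.log (x N / w V N) = _
  rw [Real.log_div h2.ne' h4.ne', w, Real.log_mul (by positivity) (Real.exp_pos _).ne',
    Real.log_rpow hN, Real.log_exp]
  ring

lemma log_nat : Tendsto (fun N : ℕ => Real.log N / N) atTop (𝓝 0) := by
  have h := Real.isLittleO_log_id_atTop.tendsto_div_nhds_zero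
  exact h.comp tendsto_natCast_atTop_atTop

lemma log_lim (hc : 0 < c) (h : Tendsto (fun N => x N / w V N) atTop (𝓝 c)) :
    Tendsto (fun N : ℕ => 2 * Real.pi * (Real.log (x N) / N)) atTop (𝓝 V) := by
  have h1 := (log_eq hc h).mul (tendsto_inv_atTop_zero.comp tendsto_natCast_atTop_atTop :
    Tendsto (fun N : ℕ => ((N : ℝ))⁻¹) atTop (𝓝 0))
  rw [mul_zero] at h1
  have h2 := log_nat.const_mul (3 / 2 : ℝ)
  rw [mul_zero] at h2
  have h3 := ((h1.add h2).const_mul (2 * Real.pi)).add_const V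
  rw [add_zero, mul_zero, zero_add] at h3
  refine h3.congr' ?_
  filter_upwards [eventually_ge_atTop 1] with N hN
  have hN0 : (N : ℝ) ≠ 0 := by
    have : N ≠ 0 := by omega
    exact_mod_cast this
  have hpi := Real.pi_ne_zero
  show 2 * Real.pi * ((Real.log (x N) - 3 / 2 * Real.log N - N * V / (2 * Real.pi)) * ((N : ℝ))⁻¹ +
    3 / 2 * (Real.log N / N)) + V = _
  field_simp
  ring

lemma log_succ (k : ℕ) : Tendsto (fun N : ℕ => Real.log ((N + k : ℕ) : ℝ) - Real.log N) atTop
    (𝓝 0) := by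
  have h1 : Tendsto (fun N : ℕ => 1 + (k : ℝ) * ((N : ℝ))⁻¹) atTop (𝓝 (1 + k * 0)) :=
    ((tendsto_inv_atTop_zero.comp tendsto_natCast_atTop_atTop).const_mul (k : ℝ)).const_add 1
  rw [mul_zero, add_zero] at h1
  have h2 := (Real.continuousAt_log one_ne_zero).tendsto.comp h1
  rw [Real.log_one] at h2
  refine h2.congr' ?_
  filter_upwards [eventually_ge_atTop 1] with N hN
  have hN0 : (0 : ℝ) < N := by exact_mod_cast hN
  show Real.log (1 + (k : ℝ) * ((N : ℝ))⁻¹) = _
  rw [← Real.log_div (by positivity) hN0.ne']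
  congr 1
  push_cast
  field_simp

lemma log_diff (hc : 0 < c) (h : Tendsto (fun N => x N / w V N) atTop (𝓝 c)) (k : ℕ) :
    Tendsto (fun N : ℕ => Real.log (x (N + k)) - Real.log (x N)) atTop
      (𝓝 (k * V / (2 * Real.pi))) := by
  have h1 := log_eq hc h
  have h2 := h1.comp (tendsto_add_atTop_nat k)
  have h3 := ((h2.sub h1).add ((log_succ k).const_mul (3 / 2 : ℝ))).add_const
    ((k : ℝ) * V / (2 * Real.pi))
  rw [sub_self, mul_zero, add_zero, zero_add] at h3
  refine h3.congr fun N => ?_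
  show Real.log (x (N + k)) - 3 / 2 * Real.log ((N + k : ℕ) : ℝ) -
    ((N + k : ℕ) : ℝ) * V / (2 * Real.pi) - (Real.log (x N) - 3 / 2 * Real.log N -
      N * V / (2 * Real.pi)) + 3 / 2 * (Real.log ((N + k : ℕ) : ℝ) - Real.log N) +
      k * V / (2 * Real.pi) = _
  push_cast
  ring

lemma ratio (hc : 0 < c) (h : Tendsto (fun N => x N / w V N) atTop (𝓝 c)) (k : ℕ) :
    Tendsto (fun N : ℕ => x (N + k) / x N) atTop (𝓝 (Real.exp (k * V / (2 * Real.pi)))) := by
  have h1 := (Real.continuous_exp.tendsto _).comp (log_diff hc h k)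
  refine h1.congr' ?_
  have h2 := ev_pos hc h
  filter_upwards [h2, (tendsto_add_atTop_nat k).eventually h2] with N h3 h4
  show Real.exp (Real.log (x (N + k)) - Real.log (x N)) = _
  rw [Real.exp_sub, Real.exp_log h3, Real.exp_log h4]

end Pool.Agent.Y472.K.Lim
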