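import Pool.Agent.Y472.A.Defs2
import Pool.Agent.Y391.CB.Rect

/-!
# The Turk's head links (closures of the 3-braids `(s_1 s_2⁻¹)^n`): definitions and statements

The Kashaev invariant is a sum over `2 n` indices `i_r, j_r` (`r` modulo `n`), `j_r ≤ i_r, i_{r+1}`,
of an explicit coefficient times `∑_p F'(2 π p / N)`, `F` an explicit odd trigonometric polynomial in
the variable `χ` of the axis.  This sum is an integral over any horizontal line in the upper half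
plane; the line may depend on the configuration.  With the right choice the sum of the absolute
values is dominated by the configurations near `i_r = (1 - b⋆) N`, `j_r = b⋆ N`.
-/

set_option autoImplicit false

namespace Pool.Agent.Y472.K

open Finset Filter Topology MeasureTheory Pool.Agent.W711.HT
open scoped Real

/-! ### The exact formula -/

/-- `∏_{j < s ≤ i} (2 cos χ - 2 cos (2 π s / N))` -/
noncomputable def Pq (N j i : ℕ) (χ : ℂ) : ℂ :=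
  ∏ s ∈ Ioc j i, (2 * Complex.cos χ - 2 * (Real.cos (2 * π * s / N) : ℂ))

/-- configurations -/
structure Ok (n N : ℕ) [NeZero n] (i j : Fin n → ℕ) : Prop where
  lt : ∀ r, i r < N
  le : ∀ r, j r ≤ i r
  le' : ∀ r, j r ≤ i (r + 1)

/-- the coefficient of a configuration -/
noncomputable def co (n N : ℕ) [NeZero n] (i j : Fin n → ℕ) : ℂ :=
  ∏ r, vN N ^ (((i r : ℤ) - i (r + 1)) * j r) /
    ((Sd N (i r - j r) : ℂ) * (Sd N (i (r + 1) - j r) : ℂ))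

/-- the factor which depends on `χ` -/
noncomputable def Qc (n N : ℕ) [NeZero n] (i j : Fin n → ℕ) (χ : ℂ) : ℂ :=
  ∏ r, Pq N (j r) (i (r + 1)) χ

/-- the contribution of a configuration -/
noncomputable def ct (n N : ℕ) [NeZero n] (i j : Fin n → ℕ) : ℂ :=
  co n N i j * ∑ p ∈ range N, deriv (fun χ => Complex.sin χ * Qc n N i j χ) (2 * π * p / N)

open Classical in
/-- the configurations -/
noncomputable def cfg (n N : ℕ) [NeZero n] : Finset ((Fin n → ℕ) × (Fin n → ℕ)) :=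
  ((Fintype.piFinset fun _ => range N) ×ˢ (Fintype.piFinset fun _ => range N)).filter
    fun c => Ok n N c.1 c.2

/-- CJ1: the matrix entries for the exponents `1` and `-1` -/
def S_CJ1 : Prop := S_GDA → ∀ N : ℕ, 2 ≤ N → ∃ u u' : ℂ, ‖u‖ = 1 ∧ ‖u'‖ = 1 ∧
  ∀ j i : ℕ, j ≤ i → i < N →
    cJ N 1 j i = u * ((-1) ^ j * vN N ^ ((i : ℤ) * j + i) /
      ((Sd N (i - j) : ℂ) * ((Sd N i : ℂ) / Sd N j))) ∧
    cJ N (-1) j i = u' * ((-1) ^ j * vN N ^ (-((i : ℤ) * j + i)) /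
      ((Sd N (i - j) : ℂ) * ((Sd N i : ℂ) / Sd N j)))

/-- the conclusion of `S_EXF` -/
def ExfC : Prop := ∀ (N : ℕ) (ls : List (ℤ × ℤ)) (m : ℤ), 2 ≤ N → ls ≠ [] →
  ‖Pool.Agent.H550R3.Jones.cjones N 2 (ftw m ++ bw ls) (vN N)‖ =
    ‖∑ p ∈ range N, deriv (fun χ => wE N m χ * Tf N ls χ) (2 * π * p / N) -
      2 * Complex.I * m * N * ∑ p ∈ range N, wE N m (2 * π * p / N) * Thi N ls p‖

/-- EXA: the exact formula -/
def S_EXA : Prop := ExfC → (∀ N : ℕ, 2 ≤ N → ∃ u u' : ℂ, ‖u‖ = 1 ∧ ‖u'‖ = 1 ∧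
  ∀ j i : ℕ, j ≤ i → i < N →
    cJ N 1 j i = u * ((-1) ^ j * vN N ^ ((i : ℤ) * j + i) /
      ((Sd N (i - j) : ℂ) * ((Sd N i : ℂ) / Sd N j))) ∧
    cJ N (-1) j i = u' * ((-1) ^ j * vN N ^ (-((i : ℤ) * j + i)) /
      ((Sd N (i - j) : ℂ) * ((Sd N i : ℂ) / Sd N j)))) →
  ∀ (n N : ℕ) [NeZero n], 2 ≤ N →
    ‖Pool.Agent.H550R3.Jones.cjones N 2 (bw (List.replicate n (1, -1))) (vN N)‖ =
      ‖∑ c ∈ cfg n N, ct n N c.1 c.2‖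

/-- CON: the sum of the values of the derivative as an integral over a horizontal line -/
def S_CON : Prop := ∀ (N : ℕ) (F : ℂ → ℂ) (y : ℝ), 1 ≤ N → 0 < y → Differentiable ℂ F →
  (∀ z, F (z + 2 * π) = F z) → (∀ z, F (-z) = -F z) →
  ∑ p ∈ range N, deriv F (2 * π * p / N) = -(Complex.I * N ^ 2 / π) *
    ∫ x in (-π)..π, F (x + y * Complex.I) * Pool.Agent.Y391.CB.kN N (x + y * Complex.I)

/-! ### Rate functions -/

/-- `-∫_0^δ log (2 sin π t) dt` -/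
noncomputable def Lc (δ : ℝ) : ℝ := -∫ t in (0 : ℝ)..δ, Real.log (2 * Real.sin (π * t))

/-- `log |2 cos (x + i y) - 2 cos 2 π t|` -/
noncomputable def lf (x y t : ℝ) : ℝ :=
  Real.log ‖2 * Complex.cos (x + y * Complex.I) - 2 * (Real.cos (2 * π * t) : ℂ)‖

/-- the rate of a pair of neighbouring indices -/
noncomputable def Ep (x y a b : ℝ) : ℝ := Lc (a - b) + 1 / 2 * ∫ t in b..a, lf x y t

/-- the rate of a configuration -/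
noncomputable def HH (n : ℕ) [NeZero n] (x y : ℝ) (a b : Fin n → ℝ) : ℝ :=
  ∑ r, (Ep x y (a r) (b r) + Ep x y (a (r + 1)) (b r)) - y

/-- the polytope of the configurations -/
structure PO (n : ℕ) [NeZero n] (a b : Fin n → ℝ) : Prop where
  nn : ∀ r, 0 ≤ b r
  le1 : ∀ r, a r ≤ 1
  le : ∀ r, b r ≤ a r
  le' : ∀ r, b r ≤ a (r + 1)

/-- `cos (π / n)` -/
noncomputable def ga (n : ℕ) : ℝ := Real.cos (π / n)
/-- `cosh y_n` -/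
noncomputable def Ch (n : ℕ) : ℝ := 2 + ga n - 2 * ga n ^ 2
/-- the height `y_n` of the line -/
noncomputable def yn (n : ℕ) : ℝ := Real.arsinh (√(Ch n ^ 2 - 1))
/-- `b⋆` -/
noncomputable def bs (n : ℕ) : ℝ := Real.arccos (1 / 2 - ga n) / (2 * π)
/-- the maximal rate of a pair -/
noncomputable def Es (n : ℕ) : ℝ := Ep 0 (yn n) (1 - bs n) (bs n)
/-- the growth rate -/
noncomputable def Dn (n : ℕ) : ℝ := 2 * n * Es n - yn n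

/-- PAR: properties of the parameters -/
def S_PAR : Prop := ∀ n : ℕ, 4 ≤ n → 1 / 2 < ga n ∧ ga n < 1 ∧ 1 < Ch n ∧ Ch n < 17 / 8 ∧
  0 < yn n ∧ Real.cosh (yn n) = Ch n ∧ 1 / 4 < bs n ∧ bs n < 1 / 3 ∧
  Real.cos (2 * π * bs n) = 1 / 2 - ga n ∧
  2 * Ch n - 2 * Real.cos (2 * π * bs n) = 4 * Real.sin (2 * π * bs n) ^ 2 ∧
  Real.log (2 * Ch n - 2 * Real.cos (2 * π * bs n)) = 2 * Real.log (2 * Real.sin (2 * π * bs n)) ∧
  (n : ℝ) * ∫ t in (bs n)..(1 - bs n), Real.sinh (yn n) / (Ch n - Real.cos (2 * π * t)) = 1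

/-- STAR: every other configuration has a line on which its rate is smaller -/
def STAR (n : ℕ) [NeZero n] : Prop := ∀ a b : Fin n → ℝ, PO n a b →
  ¬ (∀ r, a r = 1 - bs n ∧ b r = bs n) → ∃ y : ℝ, 0 < y ∧ ∀ x ∈ Set.Icc (-π) π,
    HH n x y a b < Dn n

/-- STARX: on the line of the height `y_n` the rate is maximal at `x = 0` -/
def STARX (n : ℕ) : Prop := ∀ x ∈ Set.Icc (-π) π, x ≠ 0 →
  Ep x (yn n) (1 - bs n) (bs n) < Es n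

/-! ### Bounds for finite `N` -/

/-- SB -/
def S_SB : Prop := ∀ ε : ℝ, 0 < ε → ∀ᶠ N : ℕ in atTop, ∀ m < N,
  (Sd N m)⁻¹ ≤ Real.exp (N * (Lc (m / N) + ε))

/-- QB -/
def S_QB : Prop := ∀ y : ℝ, 0 < y → ∃ C : ℝ, 0 < C ∧ ∀ N : ℕ, 1 ≤ N → ∀ j i : ℕ, j ≤ i → i ≤ N →
  ∀ x : ℝ, ‖Pq N j i (x + y * Complex.I)‖ ≤
    C * Real.exp (N * ∫ t in ((j : ℝ) / N)..((i : ℝ) / N), lf x y t)

/-- FAR: the configurations away from the maximum -/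
def S_FAR : Prop := S_PAR → S_SB → S_QB → S_CON → ∀ (n : ℕ) [NeZero n], 4 ≤ n → STAR n →
  ∀ ρ : ℝ, 0 < ρ → ∃ κ : ℝ, 0 < κ ∧ ∀ᶠ N : ℕ in atTop, ∀ i j : Fin n → ℕ, Ok n N i j →
    (∃ r, ρ ≤ |(i r : ℝ) / N - (1 - bs n)| ∨ ρ ≤ |(j r : ℝ) / N - bs n|) →
    ‖ct n N i j‖ ≤ Real.exp (N * (Dn n - κ))

/-- FARX: the configurations near the maximum, on the line of the height `y_n` away from `x = 0` -/
def S_FARX : Prop := S_PAR → S_SB → S_QB → ∀ (n : ℕ) [NeZero n], 4 ≤ n → STARX n →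
  ∀ ρ' : ℝ, 0 < ρ' → ∃ ρ : ℝ, 0 < ρ ∧ ∃ κ : ℝ, 0 < κ ∧ ∀ᶠ N : ℕ in atTop,
    ∀ i j : Fin n → ℕ, Ok n N i j →
    (∀ r, |(i r : ℝ) / N - (1 - bs n)| < ρ ∧ |(j r : ℝ) / N - bs n| < ρ) →
    ∀ x ∈ Set.Icc (-π) π, ρ' ≤ |x| →
    ‖co n N i j * (Complex.sin (x + yn n * Complex.I) * Qc n N i j (x + yn n * Complex.I) *
      Pool.Agent.Y391.CB.kN N (x + yn n * Complex.I))‖ ≤ Real.exp (N * (Dn n - κ))

/-! ### The neighbourhood of the maximum -/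

/-- QUAD: the rate of a pair near the maximum -/
def S_QUAD : Prop := S_PAR → ∀ n : ℕ, 4 ≤ n → ∃ ρ c : ℝ, 0 < ρ ∧ 0 < c ∧ ∀ x a b : ℝ, |x| ≤ ρ →
  |a - (1 - bs n)| ≤ ρ → |b - bs n| ≤ ρ →
  Ep x (yn n) a b ≤ Es n - c * (x ^ 2 + (a - (1 - bs n)) ^ 2 + (b - bs n) ^ 2)

/-- SDA: asymptotics of the products of sines -/
def S_SDA : Prop :=
  (∀ δ₀ : ℝ, 0 < δ₀ → δ₀ < 1 / 2 → ∃ C : ℝ, 0 < C ∧ ∀ᶠ N : ℕ in atTop, ∀ m : ℕ,
    δ₀ * N ≤ m → (m : ℝ) ≤ (1 - δ₀) * N → (Sd N m)⁻¹ ≤ C / √N * Real.exp (N * Lc (m / N))) ∧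
  (∀ (m : ℕ → ℕ) (δ : ℝ), 0 < δ → δ < 1 → Tendsto (fun N => (m N : ℝ) / N) atTop (𝓝 δ) →
    Tendsto (fun N : ℕ => Sd N (m N) * Real.exp (N * Lc (m N / N)) / √N) atTop
      (𝓝 (√(2 * Real.sin (π * δ)))))

/-- `log (2 cos (x + i y) - 2 cos 2 π t)`, principal branch -/
noncomputable def clf (x y t : ℝ) : ℂ :=
  Complex.log (2 * Complex.cos (x + y * Complex.I) - 2 * (Real.cos (2 * π * t) : ℂ))

/-- QDA: asymptotics of the product `Pq` -/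
def S_QDA : Prop := ∀ y : ℝ, 0 < y → ∀ (i j : ℕ → ℕ) (x : ℕ → ℝ) (α β : ℝ),
  (∀ᶠ N in atTop, j N ≤ i N ∧ i N ≤ N) → Tendsto x atTop (𝓝 0) →
  Tendsto (fun N => (i N : ℝ) / N) atTop (𝓝 α) → Tendsto (fun N => (j N : ℝ) / N) atTop (𝓝 β) →
  Real.cos (2 * π * α) = Real.cos (2 * π * β) →
  Tendsto (fun N : ℕ => Pq N (j N) (i N) (x N + y * Complex.I) *
    Complex.exp (-(N * ∫ t in ((j N : ℝ) / N)..((i N : ℝ) / N), clf (x N) y t))) atTop (𝓝 1)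

/-- the complex exponent -/
noncomputable def Xe (n N : ℕ) [NeZero n] (i j : Fin n → ℕ) (x : ℝ) : ℂ :=
  ∑ r, ((Lc (((i r : ℝ) - j r) / N) : ℂ) + (Lc (((i (r + 1) : ℝ) - j r) / N) : ℂ)) +
    ∑ r, (∫ t in ((j r : ℝ) / N)..((i (r + 1) : ℝ) / N), clf x (yn n) t) +
    Complex.I * x - yn n

/-- PT: the exponent near the maximum -/
def S_PT : Prop := S_PAR → ∀ (n : ℕ) [NeZero n], 4 ≤ n →
  ∃ R S : QuadraticForm ℝ ((Fin n ⊕ Fin n → ℝ) × ℝ), R.PosDef ∧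
    ∀ (i j : ℕ → Fin n → ℕ) (x : ℕ → ℝ) (v : (Fin n ⊕ Fin n → ℝ) × ℝ),
      (∀ r, Tendsto (fun N : ℕ => √N * ((i N r : ℝ) / N - (1 - bs n))) atTop
        (𝓝 (v.1 (Sum.inl r)))) →
      (∀ r, Tendsto (fun N : ℕ => √N * ((j N r : ℝ) / N - bs n)) atTop (𝓝 (v.1 (Sum.inr r)))) →
      Tendsto (fun N : ℕ => √N * x N) atTop (𝓝 v.2) →
      Tendsto (fun N : ℕ => (N : ℂ) * (Xe n N (i N) (j N) (x N) - Dn n) +
        Complex.I * π / N * ∑ r, ((i N r : ℂ) - i N (r + 1)) * j N r) atTop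
        (𝓝 (-(R v : ℂ) - Complex.I * (S v : ℂ)))

/-- LAP: Laplace's method for a sum over a lattice and an integral -/
def S_LAP : Prop := ∀ (ι : Type) [Fintype ι] (f : ℕ → (ι → ℤ) → ℝ → ℂ) (m : ℕ → ι → ℝ)
  (g : (ι → ℝ) × ℝ → ℂ) (C c : ℝ), 0 < c → (∀ N k, Measurable (f N k)) →
  (∀ᶠ N : ℕ in atTop, ∀ k x, ‖f N k x‖ ≤
    C * Real.exp (-(c * ((∑ i, ((k i : ℝ) - m N i) ^ 2) / N + N * x ^ 2)))) →
  (∀ (k : ℕ → ι → ℤ) (x : ℕ → ℝ) (v : (ι → ℝ) × ℝ),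
    (∀ i, Tendsto (fun N : ℕ => ((k N i : ℝ) - m N i) / √N) atTop (𝓝 (v.1 i))) →
    Tendsto (fun N : ℕ => √N * x N) atTop (𝓝 v.2) →
    Tendsto (fun N => f N (k N) (x N)) atTop (𝓝 (g v))) →
  Tendsto (fun N : ℕ => ((√N : ℝ) : ℂ) / ((√N : ℝ) : ℂ) ^ Fintype.card ι *
    ∑' k : ι → ℤ, ∫ x, f N k x) atTop (𝓝 (∫ v, g v))

/-- GAU: complex Gaussian integrals do not vanish -/
def S_GAU : Prop := ∀ (ι : Type) [Fintype ι] (R S : QuadraticForm ℝ ((ι → ℝ) × ℝ)), R.PosDef →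
  ∫ v, Complex.exp (-(R v : ℂ) - Complex.I * (S v : ℂ)) ≠ 0

/-- NEAR: the sum over the configurations near the maximum -/
def S_NEAR : Prop := S_PAR → S_LAP → S_GAU → S_SDA → S_QDA → S_QB → S_QUAD → S_PT →
  ∀ (n : ℕ) [NeZero n], 4 ≤ n → ∃ ρ' ρ₁ : ℝ, 0 < ρ' ∧ ρ' ≤ π ∧ 0 < ρ₁ ∧ ∃ K : ℂ, K ≠ 0 ∧
    ∀ ρ : ℝ, 0 < ρ → ρ ≤ ρ₁ →
    Tendsto (fun N : ℕ => ((√N : ℝ) : ℂ) * Complex.exp (-(N * Dn n)) *
      ∑ c ∈ (cfg n N).filter (fun c => ∀ r, |(c.1 r : ℝ) / N - (1 - bs n)| < ρ ∧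
        |(c.2 r : ℝ) / N - bs n| < ρ), co n N c.1 c.2 * ∫ x in (-ρ')..ρ',
          (Complex.sin (x + yn n * Complex.I) * Qc n N c.1 c.2 (x + yn n * Complex.I) *
            Pool.Agent.Y391.CB.kN N (x + yn n * Complex.I))) atTop (𝓝 K)

/-- MAIN: asymptotics of the Kashaev invariants -/
def S_MAIN : Prop := ∀ (n : ℕ) [NeZero n], 4 ≤ n → STAR n → ∃ c : ℝ, 0 < c ∧
  Tendsto (fun N : ℕ =>
    ‖Pool.Agent.H550R3.Jones.cjones N 2 (bw (List.replicate n (1, -1))) (vN N)‖ /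
      ((N : ℝ) ^ (3 / 2 : ℝ) * Real.exp (N * Dn n))) atTop (𝓝 c)

/-! ### Inequalities for the rate of a pair -/

/-- JEN: Jensen's formula -/
def S_JEN : Prop := ∀ x y : ℝ, 0 < y → ∫ t in (0 : ℝ)..(1 / 2), lf x y t = y / 2

/-- G1: comparison with `x = 0` -/
def S_G1 : Prop := S_JEN → ∀ x y a b : ℝ, 0 < y → |x| ≤ π → 0 ≤ b → b ≤ 1 / 2 → 1 / 2 ≤ a → a ≤ 1 →
  ∫ t in b..a, lf x y t ≤ ∫ t in b..a, lf 0 y t ∧
  (x ≠ 0 → 0 < b → b < 1 / 2 → ∫ t in b..a, lf x y t < ∫ t in b..a, lf 0 y t)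

/-- the rate of the symmetric pair with the difference `δ` -/
noncomputable def ee (C δ : ℝ) : ℝ :=
  Lc δ + ∫ s in (0 : ℝ)..(δ / 2), Real.log (2 * C + 2 * Real.cos (2 * π * s))

/-- G2: comparison with the symmetric pair -/
def S_G2 : Prop := ∀ y a b : ℝ, 0 < y → 0 ≤ b → b ≤ 1 / 2 → 1 / 2 ≤ a → a ≤ 1 →
  Ep 0 y a b ≤ ee (Real.cosh y) (a - b) ∧ (a + b ≠ 1 → Ep 0 y a b < ee (Real.cosh y) (a - b)) ∧
  (a + b = 1 → Ep 0 y a b = ee (Real.cosh y) (a - b))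

/-- G3: the symmetric pairs -/
def S_G3 : Prop := S_PAR → S_JEN → ∀ n : ℕ, 4 ≤ n → ∃ δ₁ : ℝ, 1 - 2 * bs n < δ₁ ∧ δ₁ < 1 ∧
  Real.cos (π * δ₁) = (-1 - √(17 - 8 * Ch n)) / 4 ∧
  StrictMonoOn (ee (Ch n)) (Set.Icc 0 (1 - 2 * bs n)) ∧
  StrictAntiOn (ee (Ch n)) (Set.Icc (1 - 2 * bs n) δ₁) ∧
  StrictMonoOn (ee (Ch n)) (Set.Icc δ₁ 1) ∧
  ee (Ch n) 1 = yn n / 2

/-- G5: pairs on one side of `1 / 2` -/
def S_G5 : Prop := ∀ x y a b : ℝ, 0 < y → 0 ≤ b → b ≤ a → a ≤ 1 → (a ≤ 1 / 2 ∨ 1 / 2 ≤ b) →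
  Ep x y a b ≤ Lc (a - b) +
    1 / 2 * ∫ s in (0 : ℝ)..(a - b), Real.log (2 * Real.cosh y + 2 * |Real.cos (2 * π * s)|)

/-- G6: numerical bounds for `n ≥ 8` -/
def S_G6 : Prop := S_PAR → ∀ n : ℕ, 8 ≤ n → yn n / 2 < Es n ∧ ∀ δ ∈ Set.Icc (0 : ℝ) (1 / 2),
  Lc δ + 1 / 2 * ∫ s in (0 : ℝ)..δ, Real.log (2 * Ch n + 2 * |Real.cos (2 * π * s)|) < Es n

/-- ST8: STAR for `n ≥ 8`, STARX for `n ≥ 4` -/
def S_ST8 : Prop := S_PAR → S_JEN → S_G1 → S_G2 → S_G3 → S_G5 → S_G6 →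
  (∀ (n : ℕ) [NeZero n], 8 ≤ n → STAR n) ∧ ∀ n : ℕ, 4 ≤ n → STARX n

/-- ST4: STAR for `n = 4, 5, 6, 7` -/
def S_ST4 : Prop := S_PAR → S_JEN → S_G1 → S_G2 → S_G3 → S_G5 → STAR 4 ∧ STAR 5 ∧ STAR 6 ∧ STAR 7

/-- VOL: the growth rate in terms of Lobachevsky's function -/
def S_VOL : Prop := S_PAR → ∀ n : ℕ, 4 ≤ n → 2 * π * Dn n = 4 * n *
  ((-∫ t in (0 : ℝ)..(Real.arccos (Real.cos (π / n) - 1 / 2) / 2 + π / (2 * n)),
      Real.log |2 * Real.sin t|) +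
    -∫ t in (0 : ℝ)..(Real.arccos (Real.cos (π / n) - 1 / 2) / 2 - π / (2 * n)),
      Real.log |2 * Real.sin t|)

end Pool.Agent.Y472.K
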