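import Pool.Agent.Y472.K.Fin3
import Pool.Agent.Y108.TK.St4

/-!
# The Turk's head links: the asymptotics, all `n ≥ 4`
-/

set_option autoImplicit false

namespace Pool.Agent.Y472.K

open Finset Filter Topology MeasureTheory Pool.Agent.W711.HT
open scoped Real

theorem star4 {n : ℕ} [NeZero n] (hn : 4 ≤ n) : STAR n := by
  rcases Nat.lt_or_ge n 5 with h | h
  · have h4 := Pool.Agent.Y108.TK.st4 Pool.Agent.Y51.TK.t_PAR Pool.Agent.Y155.TK.jen
      Pool.Agent.Y155.TK.g1 Pool.Agent.Y813.TK.g2 Pool.Agent.Y813.TK.g3 Pool.Agent.Y813.TK.g5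
    interval_cases n
    exact h4
  · exact star h

/-- the asymptotics of the Kashaev invariants of the closure of `(s_1 s_2⁻¹)^n` -/
theorem turk (n : ℕ) (hn : 4 ≤ n) : ∃ c : ℝ, 0 < c ∧
    Tendsto (fun N : ℕ =>
      Pool.Agent.H550R3.Jones.cjones N 2 (bw (List.replicate n (1, -1))) (vN N) /
        (((N : ℝ) ^ (3 / 2 : ℝ) * Real.exp (N * Dn n) : ℝ) : ℂ)) atTop (𝓝 (c : ℂ)) := by
  have : NeZero n := ⟨by omega⟩
  exact fin n hn (star4 hn)

end Pool.Agent.Y472.K
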