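import Pool.Agent.Y472.K.Defs

/-!
# The Turk's head links: reality and positivity, statements
-/

set_option autoImplicit false

namespace Pool.Agent.Y472.K

open Finset Filter Topology MeasureTheory Pool.Agent.W711.HT
open scoped Real

/-- REAL: the sum over the configurations is real (reflection `r ↦ -r` of the index) -/
def S_REAL : Prop := ∀ (n N : ℕ) [NeZero n], 1 ≤ N →
  (starRingEnd ℂ) (∑ c ∈ cfg n N, ct n N c.1 c.2) = ∑ c ∈ cfg n N, ct n N c.1 c.2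

/-- the conclusion of `S_PT` for `n` -/
structure PTp (n : ℕ) [NeZero n] (R S : QuadraticForm ℝ ((Fin n ⊕ Fin n → ℝ) × ℝ)) : Prop where
  pos : R.PosDef
  lim : ∀ (i j : ℕ → Fin n → ℕ) (x : ℕ → ℝ) (v : (Fin n ⊕ Fin n → ℝ) × ℝ),
      (∀ r, Tendsto (fun N : ℕ => √N * ((i N r : ℝ) / N - (1 - bs n))) atTop
        (𝓝 (v.1 (Sum.inl r)))) →
      (∀ r, Tendsto (fun N : ℕ => √N * ((j N r : ℝ) / N - bs n)) atTop (𝓝 (v.1 (Sum.inr r)))) →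
      Tendsto (fun N : ℕ => √N * x N) atTop (𝓝 v.2) →
      Tendsto (fun N : ℕ => (N : ℂ) * (Xe n N (i N) (j N) (x N) - Dn n) +
        Complex.I * π / N * ∑ r, ((i N r : ℂ) - i N (r + 1)) * j N r) atTop
        (𝓝 (-(R v : ℂ) - Complex.I * (S v : ℂ)))

/-- SYM: the reflection changes the sign of `S` -/
def S_SYM : Prop := S_PAR → ∀ (n : ℕ) [NeZero n], 4 ≤ n →
  ∀ R S : QuadraticForm ℝ ((Fin n ⊕ Fin n → ℝ) × ℝ), PTp n R S →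
  ∃ T : ((Fin n ⊕ Fin n → ℝ) × ℝ) →ₗ[ℝ] ((Fin n ⊕ Fin n → ℝ) × ℝ),
    (∀ v, T (T v) = v) ∧ (∀ v, R (T v) = R v) ∧ ∀ v, S (T v) = -S v

/-- POS: complex Gaussian integrals with a symmetry are positive -/
def S_POS : Prop := S_GAU → ∀ (ι : Type) [Fintype ι] (R S : QuadraticForm ℝ ((ι → ℝ) × ℝ))
  (T : ((ι → ℝ) × ℝ) →ₗ[ℝ] ((ι → ℝ) × ℝ)), R.PosDef →
  (∀ v, T (T v) = v) → (∀ v, R (T v) = R v) → (∀ v, S (T v) = -S v) →
  ∃ κ : ℝ, 0 < κ ∧ ∫ v, Complex.exp (-(R v : ℂ) - Complex.I * (S v : ℂ)) = κ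

/-- NEARX: the sum over the configurations near the maximum, with the value of the limit -/
def S_NEARX : Prop := S_PAR → S_LAP → S_SDA → S_QDA → S_QB → S_QUAD →
  ∀ (n : ℕ) [NeZero n], 4 ≤ n → ∀ R S : QuadraticForm ℝ ((Fin n ⊕ Fin n → ℝ) × ℝ), PTp n R S →
  ∃ ρ' ρ₁ : ℝ, 0 < ρ' ∧ ρ' ≤ π ∧ 0 < ρ₁ ∧ ∃ κ : ℝ, 0 < κ ∧ ∀ ρ : ℝ, 0 < ρ → ρ ≤ ρ₁ →
    Tendsto (fun N : ℕ => ((√N : ℝ) : ℂ) * Complex.exp (-(N * Dn n)) *
      ∑ c ∈ (cfg n N).filter (fun c => ∀ r, |(c.1 r : ℝ) / N - (1 - bs n)| < ρ ∧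
        |(c.2 r : ℝ) / N - bs n| < ρ), co n N c.1 c.2 * ∫ x in (-ρ')..ρ',
          (Complex.sin (x + yn n * Complex.I) * Qc n N c.1 c.2 (x + yn n * Complex.I) *
            Pool.Agent.Y391.CB.kN N (x + yn n * Complex.I))) atTop
      (𝓝 (Complex.I * κ * ∫ v, Complex.exp (-(R v : ℂ) - Complex.I * (S v : ℂ))))

end Pool.Agent.Y472.K
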