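import Pool.Agent.Y472.K.Defs2

/-!
# The Turk's head links: expansions to all orders, statements

The logarithm of the summand is expanded in powers of `1 / N` with analytic coefficients
(Euler-Maclaurin), the sum over the lattice is replaced by an integral, and the integral is
expanded by Laplace's method in the parameter `N^{-1/2}`.
-/

set_option autoImplicit false

namespace Pool.Agent.Y472.K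

open Finset Filter Topology MeasureTheory Pool.Agent.W711.HT
open scoped Real

/-! ### Expansions of the factors -/

/-- SDX: expansion of the products of sines -/
def S_SDX : Prop := ∃ Lx : ℂ → ℂ,
  (∀ δ : ℝ, 0 < δ → δ < 1 → AnalyticAt ℂ Lx δ ∧ Lx δ = (Lc δ : ℂ)) ∧
  ∃ σ : ℕ → ℂ → ℂ, (∀ k, ∀ δ : ℝ, 0 < δ → δ < 1 → AnalyticAt ℂ (σ k) δ) ∧
  ∀ δ₀ : ℝ, 0 < δ₀ → δ₀ < 1 / 2 → ∀ K : ℕ, ∃ C : ℝ, ∀ᶠ N : ℕ in atTop, ∀ m : ℕ,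
    δ₀ * N ≤ m → (m : ℝ) ≤ (1 - δ₀) * N → ∃ e : ℂ, ‖e‖ ≤ C / (N : ℝ) ^ K ∧
      ((√(N : ℝ) : ℝ) : ℂ) / (Sd N m : ℂ) =
        Complex.exp (N * Lx ((m : ℂ) / N) + ∑ k ∈ range K, σ k ((m : ℂ) / N) / (N : ℂ) ^ k + e)

/-- QDX: expansion of the product `Pq` -/
def S_QDX : Prop := ∀ y : ℝ, 0 < y → ∃ (Θ : ℂ → ℂ → ℂ) (θ : ℕ → ℂ → ℂ → ℂ),
  (∀ t : ℝ, 0 ≤ t → t ≤ 1 → AnalyticAt ℂ (fun p : ℂ × ℂ => Θ p.1 p.2) ((t : ℂ), y * Complex.I)) ∧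
  (∀ k, ∀ t : ℝ, 0 ≤ t → t ≤ 1 →
    AnalyticAt ℂ (fun p : ℂ × ℂ => θ k p.1 p.2) ((t : ℂ), y * Complex.I)) ∧
  ∃ r : ℝ, 0 < r ∧
    (∀ a b x : ℝ, 0 ≤ a → a ≤ 1 → 0 ≤ b → b ≤ 1 → |x| < r →
      Θ a (x + y * Complex.I) - Θ b (x + y * Complex.I) = ∫ t in b..a, clf x y t) ∧
    ∀ K : ℕ, ∃ C : ℝ, ∀ᶠ N : ℕ in atTop, ∀ j i : ℕ, j ≤ i → i ≤ N → ∀ x : ℝ, |x| < r →
      ∃ e : ℂ, ‖e‖ ≤ C / (N : ℝ) ^ K ∧ Pq N j i (x + y * Complex.I) =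
        Complex.exp (N * (Θ ((i : ℂ) / N) (x + y * Complex.I) -
            Θ ((j : ℂ) / N) (x + y * Complex.I)) +
          ∑ k ∈ range K, (θ k ((i : ℂ) / N) (x + y * Complex.I) -
            θ k ((j : ℂ) / N) (x + y * Complex.I)) / (N : ℂ) ^ k + e)

/-! ### The summand -/

/-- real points -/
def cst {ι : Type} (v : (ι → ℝ) × ℝ) : (ι → ℂ) × ℂ := (fun i => (v.1 i : ℂ), (v.2 : ℂ))

/-- the logarithm of `T N k x`, `x` and `k / N - ws` small, has an expansion with analytic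
coefficients up to the order `K`; the main term is `N Ψ` -/
def LX {ι : Type} [Fintype ι] (Ψ : (ι → ℂ) × ℂ → ℂ) (ws : ι → ℝ) (K : ℕ)
    (T : ℕ → (ι → ℕ) → ℝ → ℂ) : Prop :=
  ∃ τ : ℕ → (ι → ℂ) × ℂ → ℂ, (∀ l < K, AnalyticAt ℂ (τ l) (cst (ws, 0))) ∧
    ∃ r C : ℝ, 0 < r ∧ ∀ᶠ N : ℕ in atTop, ∀ (k : ι → ℕ) (x : ℝ),
      (∀ i, |(k i : ℝ) / N - ws i| < r) → |x| < r → ∃ e : ℂ, ‖e‖ ≤ C / (N : ℝ) ^ K ∧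
        T N k x = Complex.exp (N * Ψ (cst (fun i => (k i : ℝ) / N, x)) +
          ∑ l ∈ range K, τ l (cst (fun i => (k i : ℝ) / N, x)) / (N : ℂ) ^ l + e)

/-- the critical point -/
noncomputable def wst (n : ℕ) : Fin n ⊕ Fin n → ℝ := Sum.elim (fun _ => 1 - bs n) fun _ => bs n

/-- the summand -/
noncomputable def TT (n : ℕ) [NeZero n] (N : ℕ) (k : Fin n ⊕ Fin n → ℕ) (x : ℝ) : ℂ :=
  (N : ℂ) ^ n * (co n N (fun r => k (Sum.inl r)) (fun r => k (Sum.inr r)) *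
    (Complex.sin (x + yn n * Complex.I) *
      Qc n N (fun r => k (Sum.inl r)) (fun r => k (Sum.inr r)) (x + yn n * Complex.I) *
      Pool.Agent.Y391.CB.kN N (x + yn n * Complex.I)))

/-- the relation of the potential `Ψ` to `Xe` -/
def PX (n : ℕ) [NeZero n] (Ψ : (Fin n ⊕ Fin n → ℂ) × ℂ → ℂ) : Prop :=
  ∃ r : ℝ, 0 < r ∧ ∀ N : ℕ, 1 ≤ N → ∀ (k : Fin n ⊕ Fin n → ℕ) (x : ℝ),
    (∀ i, |(k i : ℝ) / N - wst n i| < r) → |x| < r →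
    Ψ (cst (fun i => (k i : ℝ) / N, x)) =
      Xe n N (fun r => k (Sum.inl r)) (fun r => k (Sum.inr r)) x +
        Complex.I * π / (N : ℂ) ^ 2 *
          ∑ r : Fin n, ((k (Sum.inl r) : ℂ) - k (Sum.inl (r + 1))) * k (Sum.inr r)

/-- CMB: expansion of the summand -/
def S_CMB : Prop := S_PAR → S_SDX → S_QDX → ∀ (n : ℕ) [NeZero n], 4 ≤ n →
  ∃ Ψ : (Fin n ⊕ Fin n → ℂ) × ℂ → ℂ, AnalyticAt ℂ Ψ (cst (wst n, 0)) ∧ PX n Ψ ∧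
    ∀ K, LX Ψ (wst n) K (TT n)

/-- the potential near the critical point -/
structure AX {ι : Type} [Fintype ι] (Ψ : (ι → ℂ) × ℂ → ℂ) (ws : ι → ℝ) (D : ℝ)
    (R S : QuadraticForm ℝ ((ι → ℝ) × ℝ)) : Prop where
  pos : R.PosDef
  an : AnalyticAt ℂ Ψ (cst (ws, 0))
  tay : ∃ r C : ℝ, 0 < r ∧ ∀ u : (ι → ℝ) × ℝ, ‖u‖ < r →
    ‖Ψ (cst (fun i => ws i + u.1 i, u.2)) - D + R u + Complex.I * S u‖ ≤ C * ‖u‖ ^ 3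

/-- PTX: the potential of the Turk's head links -/
def S_PTX : Prop := S_PAR → ∀ (n : ℕ) [NeZero n], 4 ≤ n →
  ∀ Ψ : (Fin n ⊕ Fin n → ℂ) × ℂ → ℂ, AnalyticAt ℂ Ψ (cst (wst n, 0)) → PX n Ψ →
  ∀ R S : QuadraticForm ℝ ((Fin n ⊕ Fin n → ℝ) × ℝ), PTp n R S → AX Ψ (wst n) (Dn n) R S

/-! ### Laplace's method -/

/-- GBD: bounds of the potential at complex points -/
def S_GBD : Prop := ∀ (ι : Type) [Fintype ι] (Ψ : (ι → ℂ) × ℂ → ℂ) (ws : ι → ℝ) (D : ℝ)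
  (R S : QuadraticForm ℝ ((ι → ℝ) × ℝ)), AX Ψ ws D R S → ∃ r c C : ℝ, 0 < r ∧ 0 < c ∧
    DifferentiableOn ℂ Ψ (Metric.ball (cst (ws, 0)) (4 * r)) ∧
    (∀ (v : (ι → ℝ) × ℝ) (s : ℂ), s ≠ 0 → ‖s‖ * ‖v‖ < r →
      ((Ψ (cst (ws, 0) + s • cst v) - D) / s ^ 2).re ≤ -(c * ‖v‖ ^ 2)) ∧
    ∀ (u : (ι → ℝ) × ℝ) (z : (ι → ℂ) × ℂ), ‖u‖ < r → ‖z‖ < r →
      (Ψ (cst (ws, 0) + cst u + z)).re ≤ D - c * ‖u‖ ^ 2 + C * ‖z‖ ^ 2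

/-- the box -/
def bx (ι : Type) (ρ ρ' : ℝ) : Set ((ι → ℝ) × ℝ) := {u | (∀ i, |u.1 i| ≤ ρ) ∧ |u.2| ≤ ρ'}

/-- the holomorphic summand, with the maximal value divided off -/
noncomputable def FX {ι : Type} (Ψ : (ι → ℂ) × ℂ → ℂ) (D : ℝ) (τ : ℕ → (ι → ℂ) × ℂ → ℂ) (K N : ℕ)
    (w : (ι → ℂ) × ℂ) : ℂ :=
  Complex.exp (N * (Ψ w - D) + ∑ l ∈ range K, τ l w / (N : ℂ) ^ l)

/-- SCL: expansion of the integral over the box -/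
def S_SCL : Prop := S_GBD → ∀ (ι : Type) [Fintype ι] (Ψ : (ι → ℂ) × ℂ → ℂ) (ws : ι → ℝ) (D : ℝ)
  (R S : QuadraticForm ℝ ((ι → ℝ) × ℝ)), AX Ψ ws D R S → ∀ (K : ℕ) (τ : ℕ → (ι → ℂ) × ℂ → ℂ),
  (∀ l < K, AnalyticAt ℂ (τ l) (cst (ws, 0))) → ∃ r : ℝ, 0 < r ∧
  ∀ ρ ρ' : ℝ, 0 < ρ → ρ ≤ r → 0 < ρ' → ρ' ≤ r → ∃ a : ℕ → ℂ, ∀ J : ℕ, ∃ C : ℝ,
    ∀ᶠ N : ℕ in atTop, ‖((√(N : ℝ) : ℝ) : ℂ) ^ (Fintype.card ι + 1) *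
      (∫ u in bx ι ρ ρ', FX Ψ D τ K N (cst (fun i => ws i + u.1 i, u.2))) -
      ∑ j ∈ range J, a j / (N : ℂ) ^ j‖ ≤ C / (N : ℝ) ^ J

/-- the points of the lattice near `ws` -/
noncomputable def nrs {ι : Type} [Fintype ι] [DecidableEq ι] (ws : ι → ℝ) (ρ : ℝ) (N : ℕ) :
    Finset (ι → ℕ) :=
  Fintype.piFinset fun i => (range (⌈(ws i + ρ) * N⌉₊ + 1)).filter
    fun d : ℕ => |(d : ℝ) / N - ws i| ≤ ρ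

/-- MLT: sums over a lattice against integrals, for holomorphic functions with a Gaussian bound -/
def S_MLT : Prop := ∀ (ι : Type) [Fintype ι] [DecidableEq ι] (ws : ι → ℝ) (ρ c : ℝ), 0 < ρ →
  (∀ i, 2 * ρ ≤ ws i) → 0 < c → ∀ K : ℕ, ∃ C : ℝ, ∀ᶠ N : ℕ in atTop,
  ∀ (F : (ι → ℂ) → ℂ) (M : ℝ), 0 ≤ M →
    ContinuousOn (fun w : ι → ℝ => F fun i => (w i : ℂ)) {w | ∀ i, |w i - ws i| ≤ ρ} →
    (∀ w : ι → ℝ, (∀ i, |w i - ws i| < 2 * ρ) → ∀ (i : ι) (y : ℝ), |y| < 1 / √(N : ℝ) →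
      DifferentiableAt ℂ (fun z : ℂ => F (Function.update (fun i => (w i : ℂ)) i z))
        (w i + y * Complex.I) ∧
      ‖F (Function.update (fun i => (w i : ℂ)) i (w i + y * Complex.I))‖ ≤
        M * Real.exp (-(c * N * ∑ j, (w j - ws j) ^ 2))) →
    ‖(∑ k ∈ nrs ws ρ N, F fun i => (((k i : ℝ) / N : ℝ) : ℂ)) -
      (N : ℂ) ^ Fintype.card ι * ∫ w in {w : ι → ℝ | ∀ i, |w i - ws i| ≤ ρ},
        F fun i => (w i : ℂ)‖ ≤ C * M / (N : ℝ) ^ K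

/-- NAL: expansion of the sum over the lattice points near `ws` of the integrals -/
def S_NAL : Prop := S_GBD → S_SCL → S_MLT → ∀ (ι : Type) [Fintype ι] [DecidableEq ι]
  (Ψ : (ι → ℂ) × ℂ → ℂ) (ws : ι → ℝ) (D : ℝ) (R S : QuadraticForm ℝ ((ι → ℝ) × ℝ)), AX Ψ ws D R S →
  (∀ i, 0 < ws i) → ∀ T : ℕ → (ι → ℕ) → ℝ → ℂ, (∀ᶠ N : ℕ in atTop, ∀ k, Continuous (T N k)) →
  ∀ K : ℕ, LX Ψ ws K T → ∃ r : ℝ, 0 < r ∧ ∀ ρ ρ' : ℝ, 0 < ρ → ρ ≤ r → 0 < ρ' → ρ' ≤ r →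
    ∃ (a : ℕ → ℂ) (C : ℝ), ∀ᶠ N : ℕ in atTop,
      ‖((√(N : ℝ) : ℝ) : ℂ) / ((√(N : ℝ) : ℝ) : ℂ) ^ Fintype.card ι * Complex.exp (-(N * D)) *
        (∑ k ∈ nrs ws ρ N, ∫ x in (-ρ')..ρ', T N k x) - ∑ j ∈ range K, a j / (N : ℂ) ^ j‖ ≤
      C / (N : ℝ) ^ K

/-! ### The result -/

/-- XPJ: expansion to all orders -/
def S_XPJ : Prop := ∀ (n : ℕ) [NeZero n], 4 ≤ n → STAR n → ∃ a : ℕ → ℂ, a 0 ≠ 0 ∧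
  ∀ K : ℕ, ∃ C : ℝ, ∀ᶠ N : ℕ in atTop,
    ‖(∑ c ∈ cfg n N, ct n N c.1 c.2) / (((N : ℝ) ^ (3 / 2 : ℝ) * Real.exp (N * Dn n) : ℝ) : ℂ) -
      ∑ j ∈ range K, a j / (N : ℂ) ^ j‖ ≤ C / (N : ℝ) ^ K

end Pool.Agent.Y472.K
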