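import Pool.Agent.Y472.K.Fin2
import Pool.Agent.Y472.K.DefsX
import Pool.Agent.W707.FE.A

/-!
# Turk's head links: assembly of the expansion to all orders
-/

set_option autoImplicit false

namespace Pool.Agent.Y472.K

open Finset Filter Topology MeasureTheory Pool.Agent.W711.HT
open scoped Real

/-- the near configurations -/
def NR (n N : ℕ) (ρ : ℝ) (c : (Fin n → ℕ) × (Fin n → ℕ)) : Prop :=
  ∀ r, |(c.1 r : ℝ) / N - (1 - bs n)| ≤ ρ ∧ |(c.2 r : ℝ) / N - bs n| ≤ ρ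

open Classical in
/-- the near part -/
noncomputable def nearA (n N : ℕ) [NeZero n] (ρ ρ' : ℝ) : ℂ :=
  ∑ c ∈ (cfg n N).filter (fun c => NR n N ρ c), co n N c.1 c.2 *
    ∫ x in (-ρ')..ρ', ff n N c.1 c.2 (yn n) x

theorem split_near (n : ℕ) [NeZero n] (hn : 4 ≤ n) (hST : STAR n) (ρ' : ℝ) (hρ' : 0 < ρ')
    (hρ'π : ρ' ≤ π) : ∃ ρX : ℝ, 0 < ρX ∧ ∀ ρ : ℝ, 0 < ρ → ρ < ρX → ∃ κ : ℝ, 0 < κ ∧
    ∀ᶠ N : ℕ in atTop, ‖(∑ c ∈ cfg n N, ct n N c.1 c.2) +
      Complex.I * N ^ 2 / π * nearA n N ρ ρ'‖ ≤ Real.exp (N * (Dn n - κ)) := by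
  classical
  obtain ⟨ρX, hρX, κ₂, hκ₂, hX⟩ := Pool.Agent.Y100.TK.t_farx Pool.Agent.Y51.TK.t_PAR
    Pool.Agent.Y681.TK.t_SB Pool.Agent.Y220.TK.qb n hn (st8.2 n hn) ρ' hρ'
  refine ⟨ρX, hρX, fun ρ hρ hρρ => ?_⟩
  obtain ⟨κ₁, hκ₁, hF⟩ := Pool.Agent.Y100.TK.t_far Pool.Agent.Y51.TK.t_PAR
    Pool.Agent.Y681.TK.t_SB Pool.Agent.Y220.TK.qb Pool.Agent.Y487.TK.s_con n hn hST ρ hρ
  have hy : 0 < yn n := (Pool.Agent.Y51.TK.t_PAR n hn).2.2.2.2.1
  set y := yn n with hydef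
  set D := Dn n with hDdef
  set B : ℕ → ℂ := fun N => ∑ c ∈ (cfg n N).filter (fun c => NR n N ρ c), co n N c.1 c.2 *
    ((∫ x in (-π)..(-ρ'), ff n N c.1 c.2 y x) + ∫ x in ρ'..π, ff n N c.1 c.2 y x) with hB
  set E : ℕ → ℂ := fun N => ∑ c ∈ (cfg n N).filter (fun c => ¬ NR n N ρ c), ct n N c.1 c.2 with hE
  have hcard : ∀ N : ℕ, ((cfg n N).card : ℝ) ≤ (N : ℝ) ^ (2 * n) := by
    intro N
    have h1 : (cfg n N).card ≤ N ^ n * N ^ n := by
      unfold cfg
      refine (card_filter_le _ _).trans ?_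
      rw [card_product, Fintype.card_piFinset]
      simp
    calc ((cfg n N).card : ℝ) ≤ ((N ^ n * N ^ n : ℕ) : ℝ) := by exact_mod_cast h1
      _ = (N : ℝ) ^ (2 * n) := by push_cast; ring
  have hsplit : ∀ N : ℕ, 1 ≤ N → (∑ c ∈ cfg n N, ct n N c.1 c.2) +
      Complex.I * N ^ 2 / π * nearA n N ρ ρ' = -(Complex.I * N ^ 2 / π) * B N + E N := by
    intro N hN
    rw [← sum_filter_add_sum_filter_not (cfg n N) (fun c => NR n N ρ c)]
    have h0 : ∑ c ∈ (cfg n N).filter (fun c => NR n N ρ c), ct n N c.1 c.2 =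
        -(Complex.I * N ^ 2 / π) * nearA n N ρ ρ' - (Complex.I * N ^ 2 / π) * B N := by
      simp only [nearA, hB]
      rw [mul_sum, mul_sum, ← sum_sub_distrib]
      refine sum_congr rfl fun c _ => ?_
      rw [ct_eq Pool.Agent.Y487.TK.s_con hN c.1 c.2 hy]
      have hi : ∀ a b : ℝ, IntervalIntegrable (ff n N c.1 c.2 y) volume a b := fun a b =>
        (ff_cont hN c.1 c.2 hy).intervalIntegrable a b
      have h1 : ∫ x in (-π)..π, ff n N c.1 c.2 y x =
          (∫ x in (-π)..(-ρ'), ff n N c.1 c.2 y x) + (∫ x in (-ρ')..ρ', ff n N c.1 c.2 y x) +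
            ∫ x in ρ'..π, ff n N c.1 c.2 y x := by
        rw [intervalIntegral.integral_add_adjacent_intervals (hi _ _) (hi _ _),
          intervalIntegral.integral_add_adjacent_intervals (hi _ _) (hi _ _)]
      rw [h1]
      ring
    rw [h0]
    ring
  -- the bounds
  have hBb : ∀ᶠ N : ℕ in atTop, ‖B N‖ ≤ (N : ℝ) ^ (2 * n) * (2 * π * Real.exp (N * (D - κ₂))) := by
    filter_upwards [hX, eventually_ge_atTop 1] with N hN hN1
    have h1 : ∀ c ∈ (cfg n N).filter (fun c => NR n N ρ c), ‖co n N c.1 c.2 *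
        ((∫ x in (-π)..(-ρ'), ff n N c.1 c.2 y x) + ∫ x in ρ'..π, ff n N c.1 c.2 y x)‖ ≤
        2 * π * Real.exp (N * (D - κ₂)) := by
      intro c hc
      rw [mem_filter] at hc
      have hok : Ok n N c.1 c.2 := by
        have := hc.1
        unfold cfg at this
        rw [mem_filter] at this
        exact this.2
      have hnear : ∀ r, |(c.1 r : ℝ) / N - (1 - bs n)| < ρX ∧ |(c.2 r : ℝ) / N - bs n| < ρX :=
        fun r => ⟨(hc.2 r).1.trans_lt hρρ, (hc.2 r).2.trans_lt hρρ⟩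
      have hb : ∀ x ∈ Set.Icc (-π) π, ρ' ≤ |x| → ‖co n N c.1 c.2 * ff n N c.1 c.2 y x‖ ≤
          Real.exp (N * (D - κ₂)) := fun x hx hx' => hN c.1 c.2 hok hnear x hx hx'
      rw [mul_add, ← intervalIntegral.integral_const_mul, ← intervalIntegral.integral_const_mul]
      have e1 : ‖∫ x in (-π)..(-ρ'), co n N c.1 c.2 * ff n N c.1 c.2 y x‖ ≤
          Real.exp (N * (D - κ₂)) * |(-ρ') - (-π)| := by
        refine intervalIntegral.norm_integral_le_of_norm_le_const fun x hx => ?_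
        rw [Set.uIoc_of_le (by linarith)] at hx
        refine hb x ⟨hx.1.le, by linarith [hx.2]⟩ ?_
        rw [abs_of_neg (by linarith [hx.2])]
        linarith [hx.2]
      have e2 : ‖∫ x in ρ'..π, co n N c.1 c.2 * ff n N c.1 c.2 y x‖ ≤
          Real.exp (N * (D - κ₂)) * |π - ρ'| := by
        refine intervalIntegral.norm_integral_le_of_norm_le_const fun x hx => ?_
        rw [Set.uIoc_of_le (by linarith)] at hx
        refine hb x ⟨by linarith [hx.1], hx.2⟩ ?_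
        rw [abs_of_pos (by linarith [hx.1])]
        exact hx.1.le
      rw [abs_of_nonneg (by linarith)] at e1 e2
      have h3 := Real.exp_pos (N * (D - κ₂))
      calc _ ≤ _ := norm_add_le _ _
        _ ≤ Real.exp (N * (D - κ₂)) * (-ρ' - -π) + Real.exp (N * (D - κ₂)) * (π - ρ') :=
            add_le_add e1 e2
        _ ≤ 2 * π * Real.exp (N * (D - κ₂)) := by nlinarith
    calc ‖B N‖ ≤ ∑ c ∈ (cfg n N).filter (fun c => NR n N ρ c), 2 * π * Real.exp (N * (D - κ₂)) :=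
          norm_sum_le_of_le _ h1
      _ = ((cfg n N).filter (fun c => NR n N ρ c)).card * (2 * π * Real.exp (N * (D - κ₂))) := by
          rw [sum_const, nsmul_eq_mul]
      _ ≤ (N : ℝ) ^ (2 * n) * (2 * π * Real.exp (N * (D - κ₂))) := by
          refine mul_le_mul_of_nonneg_right ?_ (by positivity)
          exact le_trans (by exact_mod_cast card_filter_le _ _) (hcard N)
  have hEb : ∀ᶠ N : ℕ in atTop, ‖E N‖ ≤ (N : ℝ) ^ (2 * n) * Real.exp (N * (D - κ₁)) := by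
    filter_upwards [hF] with N hN
    have h1 : ∀ c ∈ (cfg n N).filter (fun c => ¬ NR n N ρ c), ‖ct n N c.1 c.2‖ ≤
        Real.exp (N * (D - κ₁)) := by
      intro c hc
      rw [mem_filter] at hc
      have hok : Ok n N c.1 c.2 := by
        have := hc.1
        unfold cfg at this
        rw [mem_filter] at this
        exact this.2
      refine hN c.1 c.2 hok ?_
      by_contra hcon
      apply hc.2
      intro r
      by_contra h2
      apply hcon
      refine ⟨r, ?_⟩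
      by_contra h3
      rw [not_or, not_le, not_le] at h3
      exact h2 ⟨h3.1.le, h3.2.le⟩
    calc ‖E N‖ ≤ ∑ c ∈ (cfg n N).filter (fun c => ¬ NR n N ρ c), Real.exp (N * (D - κ₁)) :=
          norm_sum_le_of_le _ h1
      _ = ((cfg n N).filter (fun c => ¬ NR n N ρ c)).card * Real.exp (N * (D - κ₁)) := by
          rw [sum_const, nsmul_eq_mul]
      _ ≤ _ := by
          refine mul_le_mul_of_nonneg_right ?_ (Real.exp_pos _).le
          exact le_trans (by exact_mod_cast card_filter_le _ _) (hcard N)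
  -- conclusion
  have hκ : 0 < min κ₁ κ₂ / 2 := by
    have := lt_min hκ₁ hκ₂
    linarith
  refine ⟨min κ₁ κ₂ / 2, hκ, ?_⟩
  have h0 := ((tz ((2 : ℝ) * n + 2) (min κ₁ κ₂ / 2) hκ).const_mul 3)
  rw [mul_zero] at h0
  filter_upwards [hBb, hEb, eventually_ge_atTop 1, h0.eventually (gt_mem_nhds one_pos)] with N h1 h2
    h3 h4
  have hN0 : (1 : ℝ) ≤ N := by exact_mod_cast h3
  have hp : (0 : ℝ) < π := Real.pi_pos
  rw [hsplit N h3]
  have e1 : ‖-(Complex.I * (N : ℂ) ^ 2 / π) * B N‖ ≤ (N : ℝ) ^ 2 / π *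
      ((N : ℝ) ^ (2 * n) * (2 * π * Real.exp (N * (D - κ₂)))) := by
    rw [norm_mul, norm_neg, norm_div, norm_mul, Complex.norm_I, one_mul, norm_pow,
      Complex.norm_natCast, Complex.norm_real, Real.norm_of_nonneg hp.le]
    exact mul_le_mul_of_nonneg_left h1 (by positivity)
  have e2 : (N : ℝ) ^ ((2 : ℝ) * n + 2) = N ^ (2 * n) * N ^ 2 := by
    rw [← Nat.cast_ofNat (n := 2), ← Nat.cast_mul, ← Nat.cast_add, Real.rpow_natCast, pow_add]
  have e3 : Real.exp (N * (D - κ₂)) ≤ Real.exp (N * (D - min κ₁ κ₂)) := by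
    apply Real.exp_le_exp.2
    have := min_le_right κ₁ κ₂
    nlinarith
  have e4 : Real.exp (N * (D - κ₁)) ≤ Real.exp (N * (D - min κ₁ κ₂)) := by
    apply Real.exp_le_exp.2
    have := min_le_left κ₁ κ₂
    nlinarith
  have e5 : Real.exp (N * (D - min κ₁ κ₂)) = Real.exp (-(min κ₁ κ₂ / 2 * N)) *
      Real.exp (N * (D - min κ₁ κ₂ / 2)) := by
    rw [← Real.exp_add]
    congr 1
    ring
  have e6 : (0 : ℝ) < (N : ℝ) ^ (2 * n) := by positivity
  calc ‖-(Complex.I * (N : ℂ) ^ 2 / π) * B N + E N‖ ≤ _ := norm_add_le _ _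
    _ ≤ (N : ℝ) ^ 2 / π * ((N : ℝ) ^ (2 * n) * (2 * π * Real.exp (N * (D - κ₂)))) +
        (N : ℝ) ^ (2 * n) * Real.exp (N * (D - κ₁)) := add_le_add e1 h2
    _ = 2 * ((N : ℝ) ^ (2 * n) * N ^ 2) * Real.exp (N * (D - κ₂)) +
        (N : ℝ) ^ (2 * n) * Real.exp (N * (D - κ₁)) := by
        field_simp
    _ ≤ 2 * ((N : ℝ) ^ (2 * n) * N ^ 2) * Real.exp (N * (D - min κ₁ κ₂)) +
        (N : ℝ) ^ (2 * n) * N ^ 2 * Real.exp (N * (D - min κ₁ κ₂)) := by
        have e7 : (1 : ℝ) ≤ N ^ 2 := one_le_pow₀ hN0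
        have e8 : (N : ℝ) ^ (2 * n) ≤ (N : ℝ) ^ (2 * n) * N ^ 2 := le_mul_of_one_le_right e6.le e7
        gcongr
    _ = 3 * ((N : ℝ) ^ ((2 : ℝ) * n + 2) * Real.exp (-(min κ₁ κ₂ / 2 * N))) *
        Real.exp (N * (D - min κ₁ κ₂ / 2)) := by
        rw [e2, e5]
        ring
    _ ≤ 1 * Real.exp (N * (D - min κ₁ κ₂ / 2)) := by
        gcongr
    _ = _ := one_mul _

end Pool.Agent.Y472.K
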