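import Pool.Agent.Y472.K.AsmX

/-!
# Turk's head links: assembly of the expansion to all orders, part 2
-/

set_option autoImplicit false

namespace Pool.Agent.Y472.K

open Finset Filter Topology MeasureTheory Pool.Agent.W711.HT
open scoped Real

lemma mem_nrs {ι : Type} [Fintype ι] [DecidableEq ι] {ws : ι → ℝ} {ρ : ℝ} {N : ℕ} (hN : 1 ≤ N)
    {k : ι → ℕ} : k ∈ nrs ws ρ N ↔ ∀ i, |(k i : ℝ) / N - ws i| ≤ ρ := by
  unfold nrs
  rw [Fintype.mem_piFinset]
  constructor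
  · intro h i
    exact (mem_filter.1 (h i)).2
  · intro h i
    rw [mem_filter, mem_range]
    refine ⟨?_, h i⟩
    have hN0 : (0 : ℝ) < N := by exact_mod_cast hN
    have h1 := (abs_le.1 (h i)).2
    have h2 : (k i : ℝ) ≤ (ws i + ρ) * N := by
      rw [← div_le_iff₀ hN0]
      linarith
    have h3 : (k i : ℝ) ≤ (⌈(ws i + ρ) * N⌉₊ : ℝ) := h2.trans (Nat.le_ceil _)
    have h4 : k i ≤ ⌈(ws i + ρ) * N⌉₊ := by exact_mod_cast h3
    omega

theorem near_eq (n : ℕ) [NeZero n] (hn : 4 ≤ n) {ρ : ℝ} (hρ1 : ρ ≤ 1 / 12) (ρ' : ℝ)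
    {N : ℕ} (hN : 1 ≤ N) : (N : ℂ) ^ n * nearA n N ρ ρ' =
      ∑ k ∈ nrs (wst n) ρ N, ∫ x in (-ρ')..ρ', TT n N k x := by
  classical
  have hb := Pool.Agent.Y51.TK.t_PAR n hn
  have hb1 : 1 / 4 < bs n := hb.2.2.2.2.2.2.1
  have hb2 : bs n < 1 / 3 := hb.2.2.2.2.2.2.2.1
  have hN0 : (0 : ℝ) < N := by exact_mod_cast hN
  unfold nearA
  rw [mul_sum]
  symm
  refine sum_bij' (fun k _ => ((fun r => k (Sum.inl r)), (fun r => k (Sum.inr r))))
    (fun c _ => Sum.elim c.1 c.2) ?_ ?_ ?_ ?_ ?_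
  · intro k hk
    rw [mem_nrs hN] at hk
    rw [mem_filter]
    have h1 : ∀ r, |(k (Sum.inl r) : ℝ) / N - (1 - bs n)| ≤ ρ := fun r => hk (Sum.inl r)
    have h2 : ∀ r, |(k (Sum.inr r) : ℝ) / N - bs n| ≤ ρ := fun r => hk (Sum.inr r)
    have h3 : ∀ r, k (Sum.inl r) < N := fun r => by
      have h4 := (abs_le.1 (h1 r)).2
      have h5 : (k (Sum.inl r) : ℝ) / N < 1 := by linarith
      rw [div_lt_one hN0] at h5
      exact_mod_cast h5
    have h6 : ∀ r s, k (Sum.inr r) ≤ k (Sum.inl s) := fun r s => by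
      have h4 := (abs_le.1 (h1 s)).1
      have h5 := (abs_le.1 (h2 r)).2
      have h7 : (k (Sum.inr r) : ℝ) / N ≤ (k (Sum.inl s) : ℝ) / N := by linarith
      rw [div_le_div_iff_of_pos_right hN0] at h7
      exact_mod_cast h7
    refine ⟨?_, fun r => ⟨h1 r, h2 r⟩⟩
    unfold cfg
    rw [mem_filter, mem_product, Fintype.mem_piFinset, Fintype.mem_piFinset]
    refine ⟨⟨fun r => mem_range.2 (h3 r), fun r => mem_range.2 ((h6 r r).trans_lt (h3 r))⟩,
      ⟨h3, fun r => h6 r r, fun r => h6 r (r + 1)⟩⟩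
  · intro c hc
    rw [mem_filter] at hc
    rw [mem_nrs hN]
    rintro (r | r)
    · exact (hc.2 r).1
    · exact (hc.2 r).2
  · intro k _
    funext i
    rcases i with r | r <;> rfl
  · intro c _
    rfl
  · intro k _
    unfold TT ff
    rw [← intervalIntegral.integral_const_mul, ← intervalIntegral.integral_const_mul]

theorem TT_cont (n : ℕ) [NeZero n] (hn : 4 ≤ n) {N : ℕ} (hN : 1 ≤ N)
    (k : Fin n ⊕ Fin n → ℕ) : Continuous (TT n N k) := by
  have hy : 0 < yn n := (Pool.Agent.Y51.TK.t_PAR n hn).2.2.2.2.1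
  unfold TT
  exact continuous_const.mul (continuous_const.mul (ff_cont hN _ _ hy))

/-- uniqueness: expansions of different lengths fit together -/
theorem xpj_of (hUN : Pool.Agent.W707.FE.S_UNIQ) (hSDX : S_SDX) (hQDX : S_QDX) (hCMB : S_CMB)
    (hPTX : S_PTX) (hGBD : S_GBD) (hSCL : S_SCL) (hMLT : S_MLT) (hNAL : S_NAL) : S_XPJ := by
  intro n _ hn hST
  obtain ⟨Ψ, hΨ, hPX, hLX⟩ := hCMB Pool.Agent.Y51.TK.t_PAR hSDX hQDX n hn
  obtain ⟨R, S, hR, hlim⟩ := Pool.Agent.Y180.TK.t_PT Pool.Agent.Y51.TK.t_PAR n hn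
  have hAX := hPTX Pool.Agent.Y51.TK.t_PAR n hn Ψ hΨ hPX R S ⟨hR, hlim⟩
  have hb := Pool.Agent.Y51.TK.t_PAR n hn
  have hb1 : 1 / 4 < bs n := hb.2.2.2.2.2.2.1
  have hb2 : bs n < 1 / 3 := hb.2.2.2.2.2.2.2.1
  have hws : ∀ i, 0 < wst n i := by
    rintro (r | r)
    · show 0 < 1 - bs n
      linarith
    · show 0 < bs n
      linarith
  set f : ℕ → ℂ := fun N => (∑ c ∈ cfg n N, ct n N c.1 c.2) /
    (((N : ℝ) ^ (3 / 2 : ℝ) * Real.exp (N * Dn n) : ℝ) : ℂ) with hf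
  have hexp : ∀ J : ℕ, ∃ (a : ℕ → ℂ) (C : ℝ), ∀ᶠ N : ℕ in atTop,
      ‖f N - ∑ j ∈ range J, a j * ((N : ℂ)⁻¹) ^ j‖ ≤ C * ((N : ℝ)⁻¹) ^ J := by
    intro J
    obtain ⟨r, hr, hr2⟩ := hNAL hGBD hSCL hMLT (Fin n ⊕ Fin n) Ψ (wst n) (Dn n) R S hAX hws (TT n)
      (by
        filter_upwards [eventually_ge_atTop 1] with N hN k
        exact TT_cont n hn hN k) J (hLX J)
    have hρ' : 0 < min r π := lt_min hr Real.pi_pos
    obtain ⟨ρX, hρX, hsp⟩ := split_near n hn hST (min r π) hρ' (min_le_right _ _)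
    set ρ := min (min r (1 / 12)) (ρX / 2) with hρdef
    have hρ : 0 < ρ := lt_min (lt_min hr (by norm_num)) (by linarith)
    have hρr : ρ ≤ r := (min_le_left _ _).trans (min_le_left _ _)
    have hρ12 : ρ ≤ 1 / 12 := (min_le_left _ _).trans (min_le_right _ _)
    have hρX2 : ρ < ρX := lt_of_le_of_lt (min_le_right _ _) (by linarith)
    obtain ⟨κ, hκ, hN1⟩ := hsp ρ hρ hρX2
    obtain ⟨a, C, hN2⟩ := hr2 ρ (min r π) hρ hρr hρ' (min_le_left _ _)
    refine ⟨fun j => -(Complex.I / π) * a j, 1 + C / π, ?_⟩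
    have htz := tz (J : ℝ) κ hκ
    filter_upwards [hN1, hN2, eventually_ge_atTop 1, htz.eventually (gt_mem_nhds one_pos)] with
      N h1 h2 h3 h4
    have hN0 : (0 : ℝ) < N := by exact_mod_cast h3
    have hN01 : (1 : ℝ) ≤ N := by exact_mod_cast h3
    have hNc : (N : ℂ) ≠ 0 := by exact_mod_cast hN0.ne'
    have hs0 : (0 : ℝ) < √N := Real.sqrt_pos.2 hN0
    have hsc : ((√(N : ℝ) : ℝ) : ℂ) ≠ 0 := by exact_mod_cast hs0.ne'
    have hpc : (π : ℂ) ≠ 0 := by exact_mod_cast Real.pi_ne_zero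
    -- the normalisation
    have hcard : Fintype.card (Fin n ⊕ Fin n) = 2 * n := by
      rw [Fintype.card_sum, Fintype.card_fin]
      ring
    have hsq : ((√(N : ℝ) : ℝ) : ℂ) ^ (2 * n) = (N : ℂ) ^ n := by
      rw [pow_mul, ← Complex.ofReal_pow, Real.sq_sqrt hN0.le]
      norm_cast
    rw [← near_eq n hn hρ12 (min r π) h3, hcard, hsq] at h2
    have h5 : ((√(N : ℝ) : ℝ) : ℂ) / (N : ℂ) ^ n * Complex.exp (-(N * (Dn n : ℂ))) *
        ((N : ℂ) ^ n * nearA n N ρ (min r π)) =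
        ((√(N : ℝ) : ℝ) : ℂ) * Complex.exp (-(N * (Dn n : ℂ))) * nearA n N ρ (min r π) := by
      have : (N : ℂ) ^ n ≠ 0 := pow_ne_zero _ hNc
      field_simp
    rw [h5] at h2
    set A := nearA n N ρ (min r π) with hA
    set Z := ∑ c ∈ cfg n N, ct n N c.1 c.2 with hZ
    have hw : (((N : ℝ) ^ (3 / 2 : ℝ) * Real.exp (N * Dn n) : ℝ) : ℂ) =
        (N : ℂ) ^ 2 / ((√(N : ℝ) : ℝ) : ℂ) * Complex.exp (N * (Dn n : ℂ)) := by
      have h6 : (N : ℝ) ^ (3 / 2 : ℝ) = N ^ 2 / √N := by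
        rw [eq_div_iff hs0.ne', Real.sqrt_eq_rpow, ← Real.rpow_add hN0, ← Real.rpow_natCast]
        norm_num
      rw [h6]
      push_cast
      rfl
    have hfN : f N = Z * (((√(N : ℝ) : ℝ) : ℂ) / (N : ℂ) ^ 2 * Complex.exp (-(N * (Dn n : ℂ)))) := by
      show Z / (((N : ℝ) ^ (3 / 2 : ℝ) * Real.exp (N * Dn n) : ℝ) : ℂ) = _
      rw [hw, Complex.exp_neg]
      field_simp
    have h7 : f N - ∑ j ∈ range J, -(Complex.I / π) * a j * ((N : ℂ)⁻¹) ^ j =
        (Z + Complex.I * N ^ 2 / π * A) *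
          (((√(N : ℝ) : ℝ) : ℂ) / (N : ℂ) ^ 2 * Complex.exp (-(N * (Dn n : ℂ)))) -
        Complex.I / π * (((√(N : ℝ) : ℝ) : ℂ) * Complex.exp (-(N * (Dn n : ℂ))) * A -
          ∑ j ∈ range J, a j / (N : ℂ) ^ j) := by
      have h8 : ∑ j ∈ range J, -(Complex.I / π) * a j * ((N : ℂ)⁻¹) ^ j =
          -(Complex.I / π) * ∑ j ∈ range J, a j / (N : ℂ) ^ j := by
        rw [mul_sum]
        refine sum_congr rfl fun j _ => ?_
        rw [inv_pow]
        ring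
      rw [h8, hfN]
      field_simp
      ring
    rw [h7]
    have h9 : ‖((√(N : ℝ) : ℝ) : ℂ) / (N : ℂ) ^ 2 * Complex.exp (-(N * (Dn n : ℂ)))‖ ≤
        Real.exp (-(N * Dn n)) := by
      rw [norm_mul, norm_div, norm_pow, Complex.norm_natCast, Complex.norm_real,
        Real.norm_of_nonneg hs0.le, Complex.norm_exp]
      have h10 : (-(N * (Dn n : ℂ))).re = -(N * Dn n) := by simp
      rw [h10]
      have h11 : √(N : ℝ) ≤ (N : ℝ) ^ 2 := by
        rw [Real.sqrt_le_left (by positivity)]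
        have : (N : ℝ) ≤ N ^ 4 := le_self_pow₀ hN01 (by norm_num)
        calc (N : ℝ) ≤ N ^ 4 := this
          _ = (N ^ 2) ^ 2 := by ring
      have h12 : √(N : ℝ) / (N : ℝ) ^ 2 ≤ 1 := by
        rw [div_le_one (by positivity)]
        exact h11
      exact mul_le_of_le_one_left (Real.exp_pos _).le h12
    have h13 : Real.exp (-(κ * N)) ≤ ((N : ℝ)⁻¹) ^ J := by
      rw [Real.rpow_natCast] at h4
      rw [inv_pow, ← one_div, le_div_iff₀ (by positivity)]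
      linarith
    calc _ ≤ ‖(Z + Complex.I * N ^ 2 / π * A) *
          (((√(N : ℝ) : ℝ) : ℂ) / (N : ℂ) ^ 2 * Complex.exp (-(N * (Dn n : ℂ))))‖ +
        ‖Complex.I / π * (((√(N : ℝ) : ℝ) : ℂ) * Complex.exp (-(N * (Dn n : ℂ))) * A -
          ∑ j ∈ range J, a j / (N : ℂ) ^ j)‖ := norm_sub_le _ _
      _ ≤ Real.exp (N * (Dn n - κ)) * Real.exp (-(N * Dn n)) + 1 / π * (C / (N : ℝ) ^ J) := by
        rw [norm_mul (Z + Complex.I * N ^ 2 / π * A), norm_mul (Complex.I / (π : ℂ))]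
        refine add_le_add (mul_le_mul h1 h9 (norm_nonneg _) (Real.exp_pos _).le) ?_
        rw [norm_div, Complex.norm_I, Complex.norm_real, Real.norm_of_nonneg Real.pi_pos.le]
        exact mul_le_mul_of_nonneg_left h2 (by positivity)
      _ = Real.exp (-(κ * N)) + C / π * ((N : ℝ)⁻¹) ^ J := by
        rw [← Real.exp_add, inv_pow]
        have : N * (Dn n - κ) + -(N * Dn n) = -(κ * N) := by ring
        rw [this]
        ring
      _ ≤ (1 + C / π) * ((N : ℝ)⁻¹) ^ J := by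
        rw [add_mul, one_mul]
        linarith
  obtain ⟨a, ha⟩ := hUN f hexp
  refine ⟨a, ?_, ?_⟩
  · obtain ⟨c, hc, hlim2⟩ := lead n hn hST
    obtain ⟨C, hC⟩ := ha 1
    have h1 : Tendsto f atTop (𝓝 (a 0)) := by
      have h2 : Tendsto (fun N : ℕ => C * ((N : ℝ)⁻¹) ^ 1) atTop (𝓝 0) := by
        have h3 := (tendsto_inv_atTop_zero.comp tendsto_natCast_atTop_atTop :
          Tendsto (fun N : ℕ => ((N : ℝ))⁻¹) atTop (𝓝 0)).const_mul C
        rw [mul_zero] at h3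
        refine h3.congr fun N => ?_
        show C * ((N : ℝ))⁻¹ = _
        rw [pow_one]
      have h4 : Tendsto (fun N => f N - a 0) atTop (𝓝 0) := by
        refine squeeze_zero_norm' ?_ h2
        filter_upwards [hC] with N hN
        simpa using hN
      have h5 := h4.add_const (a 0)
      rw [zero_add] at h5
      exact h5.congr fun N => by ring
    have h2 : a 0 = (c : ℂ) := tendsto_nhds_unique h1 hlim2
    rw [h2]
    exact_mod_cast hc.ne'
  · intro K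
    obtain ⟨C, hC⟩ := ha K
    refine ⟨C, ?_⟩
    filter_upwards [hC] with N hN
    have h1 : ∑ j ∈ range K, a j * ((N : ℂ)⁻¹) ^ j = ∑ j ∈ range K, a j / (N : ℂ) ^ j :=
      sum_congr rfl fun j _ => by rw [inv_pow]; ring
    rw [h1, inv_pow] at hN
    exact hN.trans (by rw [div_eq_mul_inv])

end Pool.Agent.Y472.K
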