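import Pool.Agent.Y472.K.MainC
import Pool.Agent.Y472.K.Defs2

/-!
# Turk's head links: assembly of the asymptotics, with the value of the limit
-/

set_option autoImplicit false

namespace Pool.Agent.Y472.K

open Finset Filter Topology MeasureTheory Pool.Agent.W711.HT
open scoped Real

theorem core_of (hCON : S_CON) (hPAR : S_PAR) (hSB : S_SB) (hQB : S_QB) (hFAR : S_FAR)
    (hFARX : S_FARX) (hSTX : ∀ n : ℕ, 4 ≤ n → STARX n) (n : ℕ) [NeZero n] (hn : 4 ≤ n)
    (hST : STAR n) (ρ' ρ₁ : ℝ) (hρ' : 0 < ρ') (hρ'π : ρ' ≤ π) (hρ₁ : 0 < ρ₁) (K : ℂ)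
    (hlim : ∀ ρ : ℝ, 0 < ρ → ρ ≤ ρ₁ →
    Tendsto (fun N : ℕ => ((√N : ℝ) : ℂ) * Complex.exp (-(N * Dn n)) *
      ∑ c ∈ (cfg n N).filter (fun c => ∀ r, |(c.1 r : ℝ) / N - (1 - bs n)| < ρ ∧
        |(c.2 r : ℝ) / N - bs n| < ρ), co n N c.1 c.2 * ∫ x in (-ρ')..ρ',
          (Complex.sin (x + yn n * Complex.I) * Qc n N c.1 c.2 (x + yn n * Complex.I) *
            Pool.Agent.Y391.CB.kN N (x + yn n * Complex.I))) atTop (𝓝 K)) :
    Tendsto (fun N : ℕ => (∑ c ∈ cfg n N, ct n N c.1 c.2) /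
      (((N : ℝ) ^ (3 / 2 : ℝ) * Real.exp (N * Dn n) : ℝ) : ℂ)) atTop
      (𝓝 (-(Complex.I / π) * K)) := by
  obtain ⟨ρ₂, hρ₂, κ₂, hκ₂, hX⟩ := hFARX hPAR hSB hQB n hn (hSTX n hn) ρ' hρ'
  have hρ : 0 < min ρ₁ ρ₂ := lt_min hρ₁ hρ₂
  obtain ⟨κ₁, hκ₁, hF⟩ := hFAR hPAR hSB hQB hCON n hn hST (min ρ₁ ρ₂) hρ
  have hlim := hlim (min ρ₁ ρ₂) hρ (min_le_left _ _)
  have hy : 0 < yn n := (hPAR n hn).2.2.2.2.1
  set ρ := min ρ₁ ρ₂ with hρdef
  set y := yn n with hydef
  set D := Dn n with hDdef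
  -- the near configurations
  set P : ((Fin n → ℕ) × (Fin n → ℕ)) → ℕ → Prop := fun c N =>
    ∀ r, |(c.1 r : ℝ) / N - (1 - bs n)| < ρ ∧ |(c.2 r : ℝ) / N - bs n| < ρ with hP
  classical
  set A : ℕ → ℂ := fun N => ∑ c ∈ (cfg n N).filter (fun c => P c N), co n N c.1 c.2 *
    ∫ x in (-ρ')..ρ', ff n N c.1 c.2 y x with hA
  set B : ℕ → ℂ := fun N => ∑ c ∈ (cfg n N).filter (fun c => P c N), co n N c.1 c.2 *
    ((∫ x in (-π)..(-ρ'), ff n N c.1 c.2 y x) + ∫ x in ρ'..π, ff n N c.1 c.2 y x) with hB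
  set E : ℕ → ℂ := fun N => ∑ c ∈ (cfg n N).filter (fun c => ¬ P c N), ct n N c.1 c.2 with hE
  have hcard : ∀ N : ℕ, ((cfg n N).card : ℝ) ≤ (N : ℝ) ^ (2 * n) := by
    intro N
    have h1 : (cfg n N).card ≤ N ^ n * N ^ n := by
      unfold cfg
      refine (card_filter_le _ _).trans ?_
      rw [card_product, Fintype.card_piFinset]
      simp
    calc ((cfg n N).card : ℝ) ≤ ((N ^ n * N ^ n : ℕ) : ℝ) := by exact_mod_cast h1
      _ = (N : ℝ) ^ (2 * n) := by push_cast; ring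
  have hsplit : ∀ N : ℕ, 1 ≤ N → ∑ c ∈ cfg n N, ct n N c.1 c.2 =
      -(Complex.I * N ^ 2 / π) * (A N + B N) + E N := by
    intro N hN
    rw [← sum_filter_add_sum_filter_not (cfg n N) (fun c => P c N)]
    congr 1
    simp only [hA, hB]
    rw [← sum_add_distrib, mul_sum]
    refine sum_congr rfl fun c _ => ?_
    rw [ct_eq hCON hN c.1 c.2 hy]
    have hi : ∀ a b : ℝ, IntervalIntegrable (ff n N c.1 c.2 y) volume a b := fun a b =>
      (ff_cont hN c.1 c.2 hy).intervalIntegrable a b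
    have h1 : ∫ x in (-π)..π, ff n N c.1 c.2 y x =
        (∫ x in (-π)..(-ρ'), ff n N c.1 c.2 y x) + (∫ x in (-ρ')..ρ', ff n N c.1 c.2 y x) +
          ∫ x in ρ'..π, ff n N c.1 c.2 y x := by
      rw [intervalIntegral.integral_add_adjacent_intervals (hi _ _) (hi _ _),
        intervalIntegral.integral_add_adjacent_intervals (hi _ _) (hi _ _)]
    rw [h1]
    ring
  -- the bounds
  have hBb : ∀ᶠ N : ℕ in atTop, ‖B N‖ ≤ (N : ℝ) ^ (2 * n) * (2 * π * Real.exp (N * (D - κ₂))) := by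
    filter_upwards [hX, eventually_ge_atTop 1] with N hN hN1
    have h1 : ∀ c ∈ (cfg n N).filter (fun c => P c N), ‖co n N c.1 c.2 *
        ((∫ x in (-π)..(-ρ'), ff n N c.1 c.2 y x) + ∫ x in ρ'..π, ff n N c.1 c.2 y x)‖ ≤
        2 * π * Real.exp (N * (D - κ₂)) := by
      intro c hc
      rw [mem_filter] at hc
      have hok : Ok n N c.1 c.2 := by
        have := hc.1
        unfold cfg at this
        rw [mem_filter] at this
        exact this.2
      have hnear : ∀ r, |(c.1 r : ℝ) / N - (1 - bs n)| < ρ₂ ∧ |(c.2 r : ℝ) / N - bs n| < ρ₂ :=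
        fun r => ⟨(hc.2 r).1.trans_le (min_le_right _ _), (hc.2 r).2.trans_le (min_le_right _ _)⟩
      have hb : ∀ x ∈ Set.Icc (-π) π, ρ' ≤ |x| → ‖co n N c.1 c.2 * ff n N c.1 c.2 y x‖ ≤
          Real.exp (N * (D - κ₂)) := fun x hx hx' => hN c.1 c.2 hok hnear x hx hx'
      rw [mul_add, ← intervalIntegral.integral_const_mul, ← intervalIntegral.integral_const_mul]
      have e1 : ‖∫ x in (-π)..(-ρ'), co n N c.1 c.2 * ff n N c.1 c.2 y x‖ ≤
          Real.exp (N * (D - κ₂)) * |(-ρ') - (-π)| := by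
        refine intervalIntegral.norm_integral_le_of_norm_le_const fun x hx => ?_
        rw [Set.uIoc_of_le (by linarith)] at hx
        refine hb x ⟨hx.1.le, by linarith [hx.2]⟩ ?_
        rw [abs_of_neg (by linarith [hx.2])]
        linarith [hx.2]
      have e2 : ‖∫ x in ρ'..π, co n N c.1 c.2 * ff n N c.1 c.2 y x‖ ≤
          Real.exp (N * (D - κ₂)) * |π - ρ'| := by
        refine intervalIntegral.norm_integral_le_of_norm_le_const fun x hx => ?_
        rw [Set.uIoc_of_le (by linarith)] at hx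
        refine hb x ⟨by linarith [hx.1], hx.2⟩ ?_
        rw [abs_of_pos (by linarith [hx.1])]
        exact hx.1.le
      rw [abs_of_nonneg (by linarith)] at e1 e2
      have h3 := Real.exp_pos (N * (D - κ₂))
      calc _ ≤ _ := norm_add_le _ _
        _ ≤ Real.exp (N * (D - κ₂)) * (-ρ' - -π) + Real.exp (N * (D - κ₂)) * (π - ρ') :=
            add_le_add e1 e2
        _ ≤ 2 * π * Real.exp (N * (D - κ₂)) := by nlinarith
    calc ‖B N‖ ≤ ∑ c ∈ (cfg n N).filter (fun c => P c N), 2 * π * Real.exp (N * (D - κ₂)) :=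
          norm_sum_le_of_le _ h1
      _ = ((cfg n N).filter (fun c => P c N)).card * (2 * π * Real.exp (N * (D - κ₂))) := by
          rw [sum_const, nsmul_eq_mul]
      _ ≤ (N : ℝ) ^ (2 * n) * (2 * π * Real.exp (N * (D - κ₂))) := by
          refine mul_le_mul_of_nonneg_right ?_ (by positivity)
          exact le_trans (by exact_mod_cast card_filter_le _ _) (hcard N)
  have hEb : ∀ᶠ N : ℕ in atTop, ‖E N‖ ≤ (N : ℝ) ^ (2 * n) * Real.exp (N * (D - κ₁)) := by
    filter_upwards [hF] with N hN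
    have h1 : ∀ c ∈ (cfg n N).filter (fun c => ¬ P c N), ‖ct n N c.1 c.2‖ ≤
        Real.exp (N * (D - κ₁)) := by
      intro c hc
      rw [mem_filter] at hc
      have hok : Ok n N c.1 c.2 := by
        have := hc.1
        unfold cfg at this
        rw [mem_filter] at this
        exact this.2
      refine hN c.1 c.2 hok ?_
      by_contra hcon
      apply hc.2
      intro r
      push_neg at hcon
      exact hcon r
    calc ‖E N‖ ≤ ∑ c ∈ (cfg n N).filter (fun c => ¬ P c N), Real.exp (N * (D - κ₁)) :=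
          norm_sum_le_of_le _ h1
      _ = ((cfg n N).filter (fun c => ¬ P c N)).card * Real.exp (N * (D - κ₁)) := by
          rw [sum_const, nsmul_eq_mul]
      _ ≤ _ := by
          refine mul_le_mul_of_nonneg_right ?_ (Real.exp_pos _).le
          exact le_trans (by exact_mod_cast card_filter_le _ _) (hcard N)
  -- the limits of the scaled parts
  have hA' : Tendsto (fun N : ℕ => ((√N : ℝ) : ℂ) * Complex.exp (-(N * D)) * A N) atTop (𝓝 K) := by
    refine hlim.congr fun N => ?_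
    rfl
  have hB' : Tendsto (fun N : ℕ => ((√N : ℝ) : ℂ) * Complex.exp (-(N * D)) * B N) atTop (𝓝 0) := by
    have h0 := (tz (2 * n + 1) κ₂ hκ₂).const_mul (2 * π)
    rw [mul_zero] at h0
    refine squeeze_zero_norm' ?_ h0
    filter_upwards [hBb, eventually_ge_atTop 1] with N hN hN1
    have hN0 : (1 : ℝ) ≤ N := by exact_mod_cast hN1
    have h1 : ‖Complex.exp (-(N * D : ℂ))‖ = Real.exp (-(N * D)) := by
      rw [Complex.norm_exp]
      simp
    have h2 : √(N : ℝ) ≤ N := by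
      rw [Real.sqrt_le_left (by linarith)]
      nlinarith
    rw [norm_mul, norm_mul, h1, Complex.norm_real, Real.norm_of_nonneg (Real.sqrt_nonneg _)]
    calc √(N : ℝ) * Real.exp (-(N * D)) * ‖B N‖ ≤ N * Real.exp (-(N * D)) *
          ((N : ℝ) ^ (2 * n) * (2 * π * Real.exp (N * (D - κ₂)))) := by gcongr
      _ = 2 * π * ((N : ℝ) ^ ((2 : ℝ) * n + 1) * Real.exp (-(κ₂ * N))) := by
          have e1 : Real.exp (-(N * D)) * Real.exp (N * (D - κ₂)) = Real.exp (-(κ₂ * N)) := by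
            rw [← Real.exp_add]
            congr 1
            ring
          have e2 : (N : ℝ) ^ ((2 : ℝ) * n + 1) = N ^ (2 * n) * N := by
            rw [Real.rpow_add_one (by positivity)]
            congr 1
            have : (2 : ℝ) * n = ((2 * n : ℕ) : ℝ) := by push_cast; rfl
            rw [this, Real.rpow_natCast]
          rw [e2, ← e1]
          ring
  have hE' : Tendsto (fun N : ℕ => ((√N : ℝ) : ℂ) * Complex.exp (-(N * D)) * (E N / N ^ 2)) atTop
      (𝓝 0) := by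
    refine squeeze_zero_norm' ?_ (tz (2 * n + 1) κ₁ hκ₁)
    filter_upwards [hEb, eventually_ge_atTop 1] with N hN hN1
    have hN0 : (1 : ℝ) ≤ N := by exact_mod_cast hN1
    have h1 : ‖Complex.exp (-(N * D : ℂ))‖ = Real.exp (-(N * D)) := by
      rw [Complex.norm_exp]
      simp
    have h2 : √(N : ℝ) ≤ N := by
      rw [Real.sqrt_le_left (by linarith)]
      nlinarith
    have h3 : ‖E N / (N : ℂ) ^ 2‖ ≤ ‖E N‖ := by
      rw [norm_div, norm_pow, Complex.norm_natCast]
      exact div_le_self (norm_nonneg _) (one_le_pow₀ hN0)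
    rw [norm_mul, norm_mul, h1, Complex.norm_real, Real.norm_of_nonneg (Real.sqrt_nonneg _)]
    calc √(N : ℝ) * Real.exp (-(N * D)) * ‖E N / (N : ℂ) ^ 2‖ ≤ N * Real.exp (-(N * D)) *
          ((N : ℝ) ^ (2 * n) * Real.exp (N * (D - κ₁))) := by
          have := h3.trans hN
          gcongr
      _ = ((N : ℝ) ^ ((2 : ℝ) * n + 1) * Real.exp (-(κ₁ * N))) := by
          have e1 : Real.exp (-(N * D)) * Real.exp (N * (D - κ₁)) = Real.exp (-(κ₁ * N)) := by
            rw [← Real.exp_add]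
            congr 1
            ring
          have e2 : (N : ℝ) ^ ((2 : ℝ) * n + 1) = N ^ (2 * n) * N := by
            rw [Real.rpow_add_one (by positivity)]
            congr 1
            have : (2 : ℝ) * n = ((2 * n : ℕ) : ℝ) := by push_cast; rfl
            rw [this, Real.rpow_natCast]
          rw [e2, ← e1]
          ring
  -- the conclusion
  have hT : Tendsto (fun N : ℕ => -(Complex.I / π) *
      (((√N : ℝ) : ℂ) * Complex.exp (-(N * D)) * A N +
        ((√N : ℝ) : ℂ) * Complex.exp (-(N * D)) * B N) +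
      ((√N : ℝ) : ℂ) * Complex.exp (-(N * D)) * (E N / N ^ 2)) atTop
      (𝓝 (-(Complex.I / π) * (K + 0) + 0)) :=
    ((hA'.add hB').const_mul _).add hE'
  rw [add_zero, add_zero] at hT
  · refine hT.congr' ?_
    filter_upwards [eventually_ge_atTop 2] with N hN
    rw [hsplit N (by omega)]
    have hN0 : (0 : ℝ) < N := by exact_mod_cast (by omega : 0 < N)
    have hNc : (N : ℂ) ≠ 0 := by exact_mod_cast hN0.ne'
    have h1 : -(Complex.I / π) * (((√N : ℝ) : ℂ) * Complex.exp (-(N * D)) * A N +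
        ((√N : ℝ) : ℂ) * Complex.exp (-(N * D)) * B N) +
        ((√N : ℝ) : ℂ) * Complex.exp (-(N * D)) * (E N / N ^ 2) =
        (((√N : ℝ) : ℂ) * Complex.exp (-(N * D)) / N ^ 2) *
          (-(Complex.I * N ^ 2 / π) * (A N + B N) + E N) := by
      field_simp
    rw [h1, mul_comm, div_eq_mul_inv]
    congr 1
    have h3 : (N : ℝ) ^ (3 / 2 : ℝ) = N ^ 2 / √N := by
      rw [eq_div_iff (Real.sqrt_pos.2 hN0).ne', Real.sqrt_eq_rpow, ← Real.rpow_add hN0,
        ← Real.rpow_natCast]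
      norm_num
    rw [h3]
    have h4 : ((√(N : ℝ) : ℝ) : ℂ) ≠ 0 := by exact_mod_cast (Real.sqrt_pos.2 hN0).ne'
    push_cast
    rw [Complex.exp_neg]
    field_simp

end Pool.Agent.Y472.K
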