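import Pool.Agent.Y941.TK.Exa
import Pool.Agent.Y261.TK.CJ1
import Pool.Agent.Y814.PH.Exp

/-!
# Turk's head links: the exact formula with its phase
-/

set_option autoImplicit false
set_option linter.all false

namespace Pool.Agent.Y472.K

open Finset Filter Topology Pool.Agent.Y472 Pool.Agent.Y261.TK
open Pool.Agent.W711.HT (vN Sd)
open scoped Real

/-- the matrix entries for the exponents `1` and `-1`; the product of the two phases is `-1` -/
theorem cj1c : ∀ N : ℕ, 2 ≤ N → ∃ u u' : ℂ, u * u' = -1 ∧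
  ∀ j i : ℕ, j ≤ i → i < N →
    cJ N 1 j i = u * ((-1) ^ j * vN N ^ ((i : ℤ) * j + i) /
      ((Sd N (i - j) : ℂ) * ((Sd N i : ℂ) / Sd N j))) ∧
    cJ N (-1) j i = u' * ((-1) ^ j * vN N ^ (-((i : ℤ) * j + i)) /
      ((Sd N (i - j) : ℂ) * ((Sd N i : ℂ) / Sd N j))) := by
  intro N hN
  obtain ⟨c, hcdef⟩ : ∃ c : ℤ → ℂ, c = fun a => Pool.Agent.Y686.CB.Cf N 0 ^ a * Complex.I := ⟨_, rfl⟩
  have hCf : Pool.Agent.Y686.CB.Cf N 0 ≠ 0 := Pool.Agent.Y686.CB.Cf_ne N 0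
  have hcG : ∀ (a : ℤ) (i j : ℕ), i ≤ j → j < N → ∃ G : ℂ → ℂ, DifferentiableAt ℂ G 0 ∧
    G 0 = c a * cJ N a i j ∧ ∀ᶠ ε in 𝓝[≠] (0 : ℂ), G ε = gd (vN N) (-Complex.exp ε) a i j := by
    intro a i j hij hj
    rw [hcdef]
    exact Pool.Agent.Y814.PH.Gd.gdx N hN a i j hij hj
  have h1 := rr_pos hN
  have h2 := rr_neg hN
  have hc0 : ∀ a, c a ≠ 0 := by
    intro a
    rw [hcdef]
    exact mul_ne_zero (zpow_ne_zero _ hCf) Complex.I_ne_zero
  have hc1 : c 1 ≠ 0 := hc0 1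
  have hc2 : c (-1) ≠ 0 := hc0 (-1)
  have hprod : c 1 * c (-1) = -1 := by
    rw [hcdef]
    simp only [zpow_one, zpow_neg]
    field_simp
    rw [Complex.I_sq]
  have hv0 : vN N ≠ 0 := Complex.exp_ne_zero _
  refine ⟨(c 1)⁻¹ * -vN N, (c (-1))⁻¹ * -(vN N)⁻¹, ?_, fun j i hji hi => ⟨?_, ?_⟩⟩
  · have e1 : (c 1)⁻¹ * -vN N * ((c (-1))⁻¹ * -(vN N)⁻¹) = (c 1 * c (-1))⁻¹ := by
      field_simp
    rw [e1, hprod]
    norm_num
  · obtain ⟨m, rfl⟩ : ∃ m, i = j + m := ⟨i - j, by omega⟩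
    obtain ⟨G, g1, g2, g3⟩ := hcG 1 j (j + m) hji hi
    have e1 := lim_eq h1 hi 1 one_ne_zero (fun ε => gd (vN N) (-Complex.exp ε) 1 j (j + m)) G g1 g3
      (fun ε _ => by rw [Complex.ofReal_one, one_mul])
    rw [g2, h1.val hi] at e1
    rw [show j + m - j = m by omega, mul_assoc, ← neg_mul_eq_neg_mul]
    rw [eq_inv_mul_iff_mul_eq₀ hc1, e1]
    rw [← neg_mul_eq_neg_mul]
    congr 4
  · obtain ⟨m, rfl⟩ : ∃ m, i = j + m := ⟨i - j, by omega⟩
    obtain ⟨G, g1, g2, g3⟩ := hcG (-1) j (j + m) hji hi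
    have e1 := lim_eq h2 hi (-1) (by norm_num) (fun ε => gd (vN N) (-Complex.exp ε) (-1) j (j + m))
      G g1 g3 (fun ε _ => by
        show gd (vN N) (-Complex.exp ε) (-1) j (j + m) = _
        rw [gd_neg, inv_neg, ← Complex.exp_neg]
        congr 3
        simp)
    rw [g2, h2.val hi] at e1
    rw [show j + m - j = m by omega, mul_assoc, ← neg_mul_eq_neg_mul]
    rw [eq_inv_mul_iff_mul_eq₀ hc2, e1]
    rw [← neg_mul_eq_neg_mul]
    congr 4
    rw [zpow_neg, inv_pow, ← zpow_natCast]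
    congr 2

/-- the exact formula -/
theorem exac (n N : ℕ) [NeZero n] (hN : 2 ≤ N) :
    Pool.Agent.H550R3.Jones.cjones N 2 (bw (List.replicate n (1, -1))) (vN N) =
      ∑ c ∈ cfg n N, ct n N c.1 c.2 := by
  obtain ⟨u, u', huu, hc⟩ := cj1c N hN
  have h1 := Pool.Agent.Y814.PH.exp_formula N (List.replicate n (1, -1)) 0 hN (by
    rw [Ne, List.replicate_eq_nil_iff]
    exact NeZero.ne n)
  have h2 : ftw 0 = [] := rfl
  rw [h2, List.nil_append] at h1
  rw [h1]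
  have h3 : ∀ χ : ℂ, wE N 0 χ * Tf N (List.replicate n (1, -1)) χ =
      ∑ c ∈ cfg n N, (u * u') ^ n * co n N c.1 c.2 *
        (Complex.sin χ * Qc n N c.1 c.2 χ) := by
    intro χ
    rw [Pool.Agent.Y941.TK.Tf_eq hc, wE, Pool.Agent.W711.HT.Ea]
    simp only [mul_zero, Int.cast_zero, zero_mul, zero_div, Complex.exp_zero, mul_one]
    rw [← mul_assoc, Finset.mul_sum]
    refine Finset.sum_congr rfl fun c _ => ?_
    ring
  have h4 : ∀ z : ℂ, deriv (fun χ => wE N 0 χ * Tf N (List.replicate n (1, -1)) χ) z =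
      ∑ c ∈ cfg n N, (u * u') ^ n * co n N c.1 c.2 *
        deriv (fun χ => Complex.sin χ * Qc n N c.1 c.2 χ) z := by
    intro z
    simp only [h3]
    have hd : ∀ c ∈ cfg n N, DifferentiableAt ℂ (fun χ => Complex.sin χ * Qc n N c.1 c.2 χ) z :=
      fun c _ => (Complex.differentiable_sin.mul (Pool.Agent.Y941.TK.Qc_diff n N c.1 c.2)) z
    rw [deriv_fun_sum (fun c hcc => (hd c hcc).const_mul _)]
    refine Finset.sum_congr rfl fun c hcc => ?_
    rw [deriv_const_mul _ (hd c hcc)]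
  have h5 : ∑ p ∈ range N, deriv (fun χ => wE N 0 χ * Tf N (List.replicate n (1, -1)) χ)
      (2 * π * p / N) = (u * u') ^ n * ∑ c ∈ cfg n N, ct n N c.1 c.2 := by
    simp only [h4]
    rw [Finset.sum_comm, Finset.mul_sum]
    refine Finset.sum_congr rfl fun c _ => ?_
    rw [← Finset.mul_sum]
    unfold ct
    ring
  have h6 : Pool.Agent.Y482.Ph.pz N (List.replicate n (1, -1)) 0 = (-1) ^ n := by
    have h7 : (Pool.Agent.Y481.wts (List.replicate n ((1 : ℤ), (-1 : ℤ)))).sum = 0 := by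
      rw [Pool.Agent.Y481.wts]
      clear * -
      induction n with
      | zero => simp
      | succ k ih =>
        rw [List.replicate_succ, List.map_cons, List.flatten_cons, List.sum_append, ih]
        simp
    rw [Pool.Agent.Y482.Ph.pz, h7]
    simp
  rw [Pool.Agent.Y482.Ph.SB, h6, h5, huu]
  simp only [Int.cast_zero, mul_zero, zero_mul, sub_zero]
  rw [← mul_assoc, ← mul_pow]
  norm_num

end Pool.Agent.Y472.K
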