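import Pool.Agent.Y472.K.MainC
import Pool.Agent.Y472.K.ExaC
import Pool.Agent.Y51.TK.Par
import Pool.Agent.Y51.TK.St8
import Pool.Agent.Y51.TK.G6
import Pool.Agent.Y487.TK.Contour
import Pool.Agent.Y681.TK.Fin
import Pool.Agent.Y220.TK.Qbd
import Pool.Agent.Y100.TK.Far
import Pool.Agent.Y721.TK.Quad
import Pool.Agent.Y180.TK.Pt
import Pool.Agent.Y407.TK.Lap
import Pool.Agent.Y86.TK.Gau
import Pool.Agent.Y430.TK.Near
import Pool.Agent.Y155.TK.Jen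
import Pool.Agent.Y813.TK.Ineq
import Pool.Agent.Y988.TK.Vol

/-!
# The Turk's head links: the asymptotics of the Kashaev invariants
-/

set_option autoImplicit false

namespace Pool.Agent.Y472.K

open Finset Filter Topology MeasureTheory Pool.Agent.W711.HT
open scoped Real

theorem st8 : (∀ (n : ℕ) [NeZero n], 8 ≤ n → STAR n) ∧ ∀ n : ℕ, 4 ≤ n → STARX n :=
  Pool.Agent.Y51.TK.t_ST8 Pool.Agent.Y51.TK.t_PAR Pool.Agent.Y155.TK.jen Pool.Agent.Y155.TK.g1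
    Pool.Agent.Y813.TK.g2 Pool.Agent.Y813.TK.g3 Pool.Agent.Y813.TK.g5 Pool.Agent.Y51.TK.t_G6

theorem mainc : S_MAINC :=
  mainc_of Pool.Agent.Y487.TK.s_con Pool.Agent.Y51.TK.t_PAR Pool.Agent.Y681.TK.t_SB
    Pool.Agent.Y220.TK.qb Pool.Agent.Y100.TK.t_far Pool.Agent.Y100.TK.t_farx Pool.Agent.Y407.TK.lap
    Pool.Agent.Y86.TK.t_GAU Pool.Agent.Y681.TK.t_SDA Pool.Agent.Y220.TK.qda
    Pool.Agent.Y721.TK.t_QUAD Pool.Agent.Y180.TK.t_PT Pool.Agent.Y430.TK.near st8.2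

/-- the growth rate -/
theorem vol (n : ℕ) (hn : 4 ≤ n) : 2 * π * Dn n = 4 * n *
  ((-∫ t in (0 : ℝ)..(Real.arccos (Real.cos (π / n) - 1 / 2) / 2 + π / (2 * n)),
      Real.log |2 * Real.sin t|) +
    -∫ t in (0 : ℝ)..(Real.arccos (Real.cos (π / n) - 1 / 2) / 2 - π / (2 * n)),
      Real.log |2 * Real.sin t|) :=
  Pool.Agent.Y988.TK.vol Pool.Agent.Y51.TK.t_PAR n hn

/-- the asymptotics for `n ≥ 8` -/
theorem fin8 (n : ℕ) [NeZero n] (hn : 8 ≤ n) : ∃ C : ℂ, C ≠ 0 ∧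
    Tendsto (fun N : ℕ =>
      Pool.Agent.H550R3.Jones.cjones N 2 (bw (List.replicate n (1, -1))) (vN N) /
        (((N : ℝ) ^ (3 / 2 : ℝ) * Real.exp (N * Dn n) : ℝ) : ℂ)) atTop (𝓝 C) := by
  obtain ⟨C, h1, h2⟩ := mainc n (by omega) (st8.1 n hn)
  refine ⟨C, h1, h2.congr' ?_⟩
  filter_upwards [eventually_ge_atTop 2] with N hN
  rw [exac n N hN]

end Pool.Agent.Y472.K
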