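import Pool.Agent.Y472.K.Fin
import Pool.Agent.Y472.K.Core
import Pool.Agent.Y604.TK.Real
import Pool.Agent.Y604.TK.Pos
import Pool.Agent.Y100.TK.Sym
import Pool.Agent.Y430.TK.NearX

/-!
# The Turk's head links: the leading coefficient is positive
-/

set_option autoImplicit false

namespace Pool.Agent.Y472.K

open Finset Filter Topology MeasureTheory Pool.Agent.W711.HT
open scoped Real

theorem lead (n : ℕ) [NeZero n] (hn : 4 ≤ n) (hST : STAR n) : ∃ c : ℝ, 0 < c ∧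
    Tendsto (fun N : ℕ => (∑ c ∈ cfg n N, ct n N c.1 c.2) /
      (((N : ℝ) ^ (3 / 2 : ℝ) * Real.exp (N * Dn n) : ℝ) : ℂ)) atTop (𝓝 (c : ℂ)) := by
  obtain ⟨R, S, hR, hlim⟩ := Pool.Agent.Y180.TK.t_PT Pool.Agent.Y51.TK.t_PAR n hn
  have hP : PTp n R S := ⟨hR, hlim⟩
  obtain ⟨T, hT1, hT2, hT3⟩ := Pool.Agent.Y100.TK.t_SYM Pool.Agent.Y51.TK.t_PAR n hn R S hP
  obtain ⟨κ₀, hκ₀, hint⟩ := Pool.Agent.Y604.TK.t_POS Pool.Agent.Y86.TK.t_GAU (Fin n ⊕ Fin n) R S T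
    hR hT1 hT2 hT3
  obtain ⟨ρ', ρ₁, hρ', hρ'π, hρ₁, κ, hκ, hlim2⟩ := Pool.Agent.Y430.TK.nearx
    Pool.Agent.Y51.TK.t_PAR Pool.Agent.Y407.TK.lap Pool.Agent.Y681.TK.t_SDA
    Pool.Agent.Y220.TK.qda Pool.Agent.Y220.TK.qb Pool.Agent.Y721.TK.t_QUAD n hn R S hP
  refine ⟨κ * κ₀ / π, by positivity, ?_⟩
  have h := core_of Pool.Agent.Y487.TK.s_con Pool.Agent.Y51.TK.t_PAR Pool.Agent.Y681.TK.t_SB
    Pool.Agent.Y220.TK.qb Pool.Agent.Y100.TK.t_far Pool.Agent.Y100.TK.t_farx st8.2 n hn hST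
    ρ' ρ₁ hρ' hρ'π hρ₁ _ hlim2
  rw [hint] at h
  have hpi : (π : ℂ) ≠ 0 := by exact_mod_cast Real.pi_ne_zero
  have e1 : -(Complex.I / π) * (Complex.I * κ * κ₀) = ((κ * κ₀ / π : ℝ) : ℂ) := by
    push_cast
    field_simp
    rw [Complex.I_sq]
    ring
  rw [e1] at h
  exact h

/-- the asymptotics -/
theorem fin (n : ℕ) [NeZero n] (hn : 4 ≤ n) (hST : STAR n) : ∃ c : ℝ, 0 < c ∧
    Tendsto (fun N : ℕ =>
      Pool.Agent.H550R3.Jones.cjones N 2 (bw (List.replicate n (1, -1))) (vN N) /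
        (((N : ℝ) ^ (3 / 2 : ℝ) * Real.exp (N * Dn n) : ℝ) : ℂ)) atTop (𝓝 (c : ℂ)) := by
  obtain ⟨c, h1, h2⟩ := lead n hn hST
  refine ⟨c, h1, h2.congr' ?_⟩
  filter_upwards [eventually_ge_atTop 2] with N hN
  rw [exac n N hN]

/-- the invariants are real -/
theorem real (n N : ℕ) [NeZero n] (hN : 2 ≤ N) :
    (Pool.Agent.H550R3.Jones.cjones N 2 (bw (List.replicate n (1, -1))) (vN N)).im = 0 := by
  rw [exac n N hN]
  exact Complex.conj_eq_iff_im.1 (Pool.Agent.Y604.TK.t_REAL n N (by omega))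

end Pool.Agent.Y472.K
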