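import Pool.Agent.Y472.K.Fin2
import Pool.Agent.Y739.TK.ST567

/-!
# The Turk's head links: the asymptotics
-/

set_option autoImplicit false

namespace Pool.Agent.Y472.K

open Finset Filter Topology MeasureTheory Pool.Agent.W711.HT
open scoped Real

theorem star {n : ℕ} [NeZero n] (hn : 5 ≤ n) : STAR n := by
  obtain ⟨h5, h6, h7⟩ := Pool.Agent.Y739.TK.st567 Pool.Agent.Y51.TK.t_PAR Pool.Agent.Y155.TK.jen
    Pool.Agent.Y155.TK.g1 Pool.Agent.Y813.TK.g2 Pool.Agent.Y813.TK.g3 Pool.Agent.Y813.TK.g5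
  rcases Nat.lt_or_ge n 8 with h | h
  · interval_cases n
    · exact h5
    · exact h6
    · exact h7
  · exact st8.1 n h

/-- the asymptotics of the Kashaev invariants of the closure of `(s_1 s_2⁻¹)^n` -/
theorem turk5 (n : ℕ) (hn : 5 ≤ n) : ∃ c : ℝ, 0 < c ∧
    Tendsto (fun N : ℕ =>
      Pool.Agent.H550R3.Jones.cjones N 2 (bw (List.replicate n (1, -1))) (vN N) /
        (((N : ℝ) ^ (3 / 2 : ℝ) * Real.exp (N * Dn n) : ℝ) : ℂ)) atTop (𝓝 (c : ℂ)) := by
  have : NeZero n := ⟨by omega⟩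
  exact fin n (by omega) (star hn)

/-- the invariants are real -/
theorem turk_real (n N : ℕ) (hn : 1 ≤ n) (hN : 2 ≤ N) :
    (Pool.Agent.H550R3.Jones.cjones N 2 (bw (List.replicate n (1, -1))) (vN N)).im = 0 := by
  have : NeZero n := ⟨by omega⟩
  exact real n N hN

end Pool.Agent.Y472.K
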