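import Pool.Agent.Y472.K.AsmX2
import Pool.Agent.Y472.K.Fin4
import Pool.Agent.W647.FE.GU
import Pool.Agent.Y297.TKX.Sdx
import Pool.Agent.Y971.TKX.Qdx
import Pool.Agent.Y363.TKX.Cmb
import Pool.Agent.Y240.TKX.Ptx
import Pool.Agent.Y936.TKX.Gbd
import Pool.Agent.Y306.TKX.Scl
import Pool.Agent.Y849.TKX.Mlt
import Pool.Agent.Y275.TKX.Nal

/-!
# The Turk's head links: the expansion to all orders
-/

set_option autoImplicit false

namespace Pool.Agent.Y472.K

open Finset Filter Topology MeasureTheory Pool.Agent.W711.HT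
open scoped Real

theorem xpj : S_XPJ :=
  xpj_of Pool.Agent.W647.FE.uniq Pool.Agent.Y297.TKX.sdx Pool.Agent.Y971.TKX.qdx
    Pool.Agent.Y363.TKX.cmb Pool.Agent.Y240.TKX.ptx Pool.Agent.Y936.TKX.gbd
    Pool.Agent.Y306.TKX.scl Pool.Agent.Y849.TKX.mlt Pool.Agent.Y275.TKX.nal

/-- the expansion to all orders, with real coefficients and a positive leading coefficient -/
theorem turkx (n : ℕ) (hn : 4 ≤ n) : ∃ a : ℕ → ℝ, 0 < a 0 ∧ ∀ K : ℕ, ∃ C : ℝ,
    ∀ᶠ N : ℕ in atTop,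
    |(Pool.Agent.H550R3.Jones.cjones N 2 (bw (List.replicate n (1, -1))) (vN N)).re /
        ((N : ℝ) ^ (3 / 2 : ℝ) * Real.exp (N * Dn n)) -
      ∑ j ∈ range K, a j / (N : ℝ) ^ j| ≤ C / (N : ℝ) ^ K := by
  have : NeZero n := ⟨by omega⟩
  obtain ⟨a, -, ha⟩ := xpj n hn (star4 hn)
  have hre : ∀ K : ℕ, ∃ C : ℝ, ∀ᶠ N : ℕ in atTop,
      |(Pool.Agent.H550R3.Jones.cjones N 2 (bw (List.replicate n (1, -1))) (vN N)).re /
          ((N : ℝ) ^ (3 / 2 : ℝ) * Real.exp (N * Dn n)) -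
        ∑ j ∈ range K, (a j).re / (N : ℝ) ^ j| ≤ C / (N : ℝ) ^ K := by
    intro K
    obtain ⟨C, hC⟩ := ha K
    refine ⟨C, ?_⟩
    filter_upwards [hC, eventually_ge_atTop 2] with N hN hN2
    refine le_trans ?_ hN
    rw [← exac n N hN2]
    refine le_trans (le_of_eq ?_) (Complex.abs_re_le_norm _)
    congr 1
    rw [Complex.sub_re, Complex.re_sum, Complex.div_ofReal_re]
    congr 1
    refine sum_congr rfl fun j _ => ?_
    rw [← Complex.ofReal_natCast, ← Complex.ofReal_pow, Complex.div_ofReal_re]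
  refine ⟨fun j => (a j).re, ?_, hre⟩
  obtain ⟨c, hc, hlim⟩ := turk n hn
  have h3 := (Complex.continuous_re.tendsto _).comp hlim
  rw [Complex.ofReal_re] at h3
  have h4 : Tendsto (fun N : ℕ =>
      (Pool.Agent.H550R3.Jones.cjones N 2 (bw (List.replicate n (1, -1))) (vN N)).re /
        ((N : ℝ) ^ (3 / 2 : ℝ) * Real.exp (N * Dn n))) atTop (𝓝 c) := by
    refine h3.congr fun N => ?_
    exact Complex.div_ofReal_re _ _
  obtain ⟨C, hC⟩ := hre 1
  have h5 : Tendsto (fun N : ℕ =>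
      (Pool.Agent.H550R3.Jones.cjones N 2 (bw (List.replicate n (1, -1))) (vN N)).re /
        ((N : ℝ) ^ (3 / 2 : ℝ) * Real.exp (N * Dn n))) atTop (𝓝 (a 0).re) := by
    have h6 : Tendsto (fun N : ℕ => C / (N : ℝ) ^ 1) atTop (𝓝 0) := by
      simp only [pow_one]
      exact tendsto_const_nhds.div_atTop tendsto_natCast_atTop_atTop
    have h7 := squeeze_zero_norm' (a := fun N : ℕ => C / (N : ℝ) ^ 1) (f := fun N : ℕ =>
      (Pool.Agent.H550R3.Jones.cjones N 2 (bw (List.replicate n (1, -1))) (vN N)).re /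
        ((N : ℝ) ^ (3 / 2 : ℝ) * Real.exp (N * Dn n)) - (a 0).re) (by
        filter_upwards [hC] with N hN
        simpa using hN) h6
    have h8 := h7.add_const (a 0).re
    rw [zero_add] at h8
    exact h8.congr fun N => by ring
  have h6 : (a 0).re = c := tendsto_nhds_unique h5 h4
  show 0 < (a 0).re
  rw [h6]
  exact hc

end Pool.Agent.Y472.K
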