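import Pool.Agent.Y472.K.FinX
import Pool.Agent.Y472.K.Lim

/-!
# The Turk's head links: forms of the result
-/

set_option autoImplicit false

namespace Pool.Agent.Y472.K.Out

open Finset Filter Topology
open Pool.Agent.Y472.K.Lim (w)

/-- a sequence of complex numbers which are real, with an expansion to all orders -/
structure Ex (J : ℕ → ℂ) (V : ℝ) (a : ℕ → ℝ) : Prop where
  pos : 0 < a 0
  real : ∀ᶠ N : ℕ in atTop, (J N).im = 0
  exp : ∀ K : ℕ, ∃ C : ℝ, ∀ᶠ N : ℕ in atTop,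
    ‖J N / ((w V N : ℝ) : ℂ) - ∑ j ∈ range K, (a j : ℂ) / (N : ℂ) ^ j‖ ≤ C / (N : ℝ) ^ K

/-- the Kashaev invariants of the closure of `(s_1 s_2⁻¹)^n` -/
noncomputable def JJ (n N : ℕ) : ℂ :=
  Pool.Agent.H550R3.Jones.cjones N 2 (bw (List.replicate n (1, -1))) (Pool.Agent.W711.HT.vN N)

theorem ex (n : ℕ) (hn : 4 ≤ n) : ∃ a : ℕ → ℝ, Ex (JJ n) (2 * Real.pi * Dn n) a := by
  obtain ⟨a, ha, h⟩ := turkx n hn
  have hr : ∀ N : ℕ, 2 ≤ N → (JJ n N).im = 0 := fun N hN => turk_real n N (by omega) hN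
  refine ⟨a, ha, ?_, fun K => ?_⟩
  · filter_upwards [eventually_ge_atTop 2] with N hN
    exact hr N hN
  · obtain ⟨C, hC⟩ := h K
    refine ⟨C, ?_⟩
    filter_upwards [hC, eventually_ge_atTop 2] with N h1 h2
    refine le_trans (le_of_eq ?_) h1
    have e1 : w (2 * Real.pi * Dn n) N = (N : ℝ) ^ (3 / 2 : ℝ) * Real.exp (N * Dn n) := by
      unfold w
      congr 2
      have := Real.pi_ne_zero
      field_simp
    have e2 : JJ n N = ((JJ n N).re : ℂ) := by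
      apply Complex.ext
      · simp
      · simp [hr N h2]
    have e3 : JJ n N / ((w (2 * Real.pi * Dn n) N : ℝ) : ℂ) -
        ∑ j ∈ range K, (a j : ℂ) / (N : ℂ) ^ j =
        (((JJ n N).re / ((N : ℝ) ^ (3 / 2 : ℝ) * Real.exp (N * Dn n)) -
          ∑ j ∈ range K, a j / (N : ℝ) ^ j : ℝ) : ℂ) := by
      rw [e1, e2]
      push_cast
      simp
    rw [e3, Complex.norm_real]
    rfl

variable {J : ℕ → ℂ} {V : ℝ} {a : ℕ → ℝ}

lemma Ex.lim (h : Ex J V a) : Tendsto (fun N : ℕ => J N / ((w V N : ℝ) : ℂ)) atTop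
    (𝓝 (a 0 : ℂ)) := by
  obtain ⟨C, hC⟩ := h.exp 1
  have h6 : Tendsto (fun N : ℕ => C / (N : ℝ) ^ 1) atTop (𝓝 0) := by
    simp only [pow_one]
    exact tendsto_const_nhds.div_atTop tendsto_natCast_atTop_atTop
  have h7 : Tendsto (fun N : ℕ => J N / ((w V N : ℝ) : ℂ) - (a 0 : ℂ)) atTop (𝓝 0) := by
    refine squeeze_zero_norm' ?_ h6
    filter_upwards [hC] with N hN
    simpa using hN
  have h8 := h7.add_const (a 0 : ℂ)
  rw [zero_add] at h8
  exact h8.congr fun N => by ring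

lemma Ex.re (h : Ex J V a) : Tendsto (fun N : ℕ => (J N).re / w V N) atTop (𝓝 (a 0)) := by
  have h3 := (Complex.continuous_re.tendsto _).comp h.lim
  rw [Complex.ofReal_re] at h3
  refine h3.congr fun N => ?_
  exact Complex.div_ofReal_re _ _

lemma Ex.ev (h : Ex J V a) : ∀ᶠ N : ℕ in atTop, 0 < (J N).re ∧ J N = ((J N).re : ℂ) := by
  filter_upwards [ev_pos h.pos h.re, h.real] with N h1 h2
  refine ⟨h1, ?_⟩
  apply Complex.ext
  · simp
  · simp [h2]
where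
  ev_pos {x : ℕ → ℝ} {V c : ℝ} (hc : 0 < c) (h : Tendsto (fun N => x N / w V N) atTop (𝓝 c)) :
    ∀ᶠ N in atTop, 0 < x N := Pool.Agent.Y472.K.Lim.ev_pos hc h

lemma Ex.ne (h : Ex J V a) : ∀ᶠ N : ℕ in atTop, J N ≠ 0 := by
  filter_upwards [h.ev] with N hN h0
  rw [h0, Complex.zero_re] at hN
  exact lt_irrefl _ hN.1

lemma Ex.norm (h : Ex J V a) : ∀ᶠ N : ℕ in atTop, ‖J N‖ = (J N).re := by
  filter_upwards [h.ev] with N hN
  rw [hN.2, Complex.norm_real, Complex.ofReal_re, Real.norm_of_nonneg hN.1.le]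

lemma Ex.log (h : Ex J V a) : Tendsto (fun N : ℕ => 2 * Real.pi * (Real.log ‖J N‖ / N)) atTop
    (𝓝 V) := by
  refine (Pool.Agent.Y472.K.Lim.log_lim h.pos h.re).congr' ?_
  filter_upwards [h.norm] with N hN
  rw [hN]

lemma Ex.ratio (h : Ex J V a) (k : ℕ) : Tendsto (fun N : ℕ => J (N + k) / J N) atTop
    (𝓝 (Complex.exp ((k * V / (2 * Real.pi) : ℝ) : ℂ))) := by
  have h1 := (Complex.continuous_ofReal.tendsto _).comp
    (Pool.Agent.Y472.K.Lim.ratio h.pos h.re k)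
  rw [Complex.ofReal_exp] at h1
  refine h1.congr' ?_
  filter_upwards [h.ev, (tendsto_add_atTop_nat k).eventually h.ev] with N h2 h3
  show (((J (N + k)).re / (J N).re : ℝ) : ℂ) = _
  rw [Complex.ofReal_div, ← h2.2, ← h3.2]

/-- real logarithms -/
lemma Ex.logs (h : Ex J V a) : ∃ l : ℕ → ℝ, (∀ᶠ N : ℕ in atTop, Complex.exp (l N) = J N) ∧
    Tendsto (fun N : ℕ => 2 * Real.pi * (l N / N)) atTop (𝓝 V) ∧
    ∀ k : ℕ, Tendsto (fun N : ℕ => l (N + k) - l N) atTop (𝓝 (k * V / (2 * Real.pi))) := by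
  refine ⟨fun N => Real.log (J N).re, ?_, Pool.Agent.Y472.K.Lim.log_lim h.pos h.re,
    fun k => Pool.Agent.Y472.K.Lim.log_diff h.pos h.re k⟩
  filter_upwards [h.ev] with N hN
  rw [← Complex.ofReal_exp, Real.exp_log hN.1]
  exact hN.2.symm

end Pool.Agent.Y472.K.Out
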